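import Mathlib

/-!
# Functions killed by products of differences

`G` is a finite commutative group with subgroups `H q`, `W q`, where `H q` meets `W q` trivially and
`H r` is contained in `W q` for `r ≠ q`. An integer valued function `f` of small norm which is
killed by all products `∏ (1 - h_q)`, `h_q ∈ H q`, is a sum of `H q`-invariant functions, with a
good bound for the norms.
-/

namespace Pool.Agent.H953R3.FH

open Finset
open scoped Classical

set_option linter.unusedSectionVars false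

variable {G : Type*} [CommGroup G] [Fintype G]

/-- The norm. -/
noncomputable def nrm (f : G → ℤ) : ℤ := ∑ u, |f u|

lemma nrm_nonneg (f : G → ℤ) : 0 ≤ nrm f := sum_nonneg fun _ _ => abs_nonneg _

/-- `∏ (1 - h_r) f = 0` for all `h_r ∈ H r`, `r` in the list. -/
def Van (H : ℕ → Subgroup G) : List ℕ → (G → ℤ) → Prop
  | [], f => ∀ u, f u = 0
  | q :: T, f => ∀ h ∈ H q, Van H T (fun u => f u - f (h * u))

variable {H W : ℕ → Subgroup G}

lemma Van.zero : ∀ T : List ℕ, Van H T (fun _ => 0)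
  | [] => fun _ => rfl
  | q :: T => by
    intro h _
    simpa using Van.zero T

lemma Van.sub : ∀ {T : List ℕ} {f g : G → ℤ}, Van H T f → Van H T g →
    Van H T (fun u => f u - g u)
  | [], f, g, hf, hg => fun u => by
    show f u - g u = 0
    rw [hf u, hg u, sub_zero]
  | q :: T, f, g, hf, hg => by
    intro h hh
    have := Van.sub (hf h hh) (hg h hh)
    have e : (fun u => f u - g u - (f (h * u) - g (h * u))) =
        fun u => (f u - f (h * u)) - (g u - g (h * u)) := by
      funext u; ring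
    show Van H T (fun u => f u - g u - (f (h * u) - g (h * u)))
    rw [e]
    exact this

lemma Van.ofLocal (W0 : Subgroup G) : ∀ {T : List ℕ} {f : G → ℤ}, (∀ r ∈ T, H r ≤ W0) →
    (∀ u0 : G, ∃ g : G → ℤ, Van H T g ∧ ∀ u, u * u0⁻¹ ∈ W0 → f u = g u) → Van H T f
  | [], f, _, h => by
    intro u
    obtain ⟨g, hg, he⟩ := h u
    rw [he u (by simp [W0.one_mem]), hg u]
  | q :: T, f, hT, h => by
    intro k hk
    apply Van.ofLocal W0 (fun r hr => hT r (List.mem_cons_of_mem _ hr))
    intro u0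
    obtain ⟨g, hg, he⟩ := h u0
    refine ⟨_, hg k hk, ?_⟩
    intro u hu
    have hkW : k ∈ W0 := hT q (List.mem_cons_self ..) hk
    rw [he u hu, he (k * u) (by rw [mul_assoc]; exact W0.mul_mem hkW hu)]

/-- restriction to a coset -/
noncomputable def res (W0 : Subgroup G) (u0 : G) (f : G → ℤ) : G → ℤ :=
  fun u => if u * u0⁻¹ ∈ W0 then f u else 0

lemma nrm_res_le (W0 : Subgroup G) (u0 : G) (f : G → ℤ) : nrm (res W0 u0 f) ≤ nrm f := by
  unfold nrm res
  refine sum_le_sum fun u _ => ?_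
  split_ifs
  · exact le_refl _
  · simp

lemma coset_trans {W0 : Subgroup G} {a b c : G} (h1 : a * b⁻¹ ∈ W0) (h2 : b * c⁻¹ ∈ W0) :
    a * c⁻¹ ∈ W0 := by
  have := W0.mul_mem h1 h2
  rwa [mul_assoc, inv_mul_cancel_left] at this

lemma coset_symm {W0 : Subgroup G} {a b : G} (h1 : a * b⁻¹ ∈ W0) : b * a⁻¹ ∈ W0 := by
  have := W0.inv_mem h1
  rwa [mul_inv, inv_inv, mul_comm] at this

/-- the elements of `H q` -/
noncomputable def HS (H : ℕ → Subgroup G) (q : ℕ) : Finset G := univ.filter (· ∈ H q)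

lemma mem_HS {q : ℕ} {h : G} : h ∈ HS H q ↔ h ∈ H q := by simp [HS]

lemma card_HS_pos (q : ℕ) : 0 < (HS H q).card := card_pos.mpr ⟨1, by simp [HS, (H q).one_mem]⟩

/-- A nonzero function killed by the products has large norm. -/
theorem min_norm {K : ℤ} : ∀ {T : List ℕ} {f : G → ℤ}, T.Nodup →
    (∀ q ∈ T, Disjoint (H q) (W q)) → (∀ q ∈ T, ∀ r ∈ T, q ≠ r → H r ≤ W q) →
    (∀ r ∈ T, K ≤ (HS H r).card) → Van H T f → ∀ u0, f u0 ≠ 0 → K ≤ nrm f
  | [], f, _, _, _, _, hV, u0, h0 => absurd (hV u0) h0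
  | q :: T, f, hnd, hd, hW, hK, hV, u0, h0 => by
    have hqT : q ∉ T := (List.nodup_cons.mp hnd).1
    have hTW : ∀ r ∈ T, H r ≤ W q := fun r hr =>
      hW q (List.mem_cons_self ..) r (List.mem_cons_of_mem _ hr) (fun e => hqT (e ▸ hr))
    by_cases hz : ∃ h ∈ H q, ∀ u, u * (h * u0)⁻¹ ∈ W q → f u = 0
    · obtain ⟨h, hh, hz⟩ := hz
      have hg : Van H T (res (W q) u0 f) := by
        apply Van.ofLocal (W q) hTW
        intro u1
        by_cases h1 : u1 * u0⁻¹ ∈ W q
        · refine ⟨_, hV h hh, ?_⟩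
          intro u hu
          have hu0 : u * u0⁻¹ ∈ W q := coset_trans hu h1
          have h2 : f (h * u) = 0 := by
            apply hz
            have : h * u * (h * u0)⁻¹ = u * u0⁻¹ := by
              rw [mul_inv]
              calc h * u * (h⁻¹ * u0⁻¹) = (h * h⁻¹) * (u * u0⁻¹) := by
                    rw [mul_mul_mul_comm]
                _ = u * u0⁻¹ := by rw [mul_inv_cancel, one_mul]
            rw [this]; exact hu0
          simp only [res, if_pos hu0, h2, sub_zero]
        · refine ⟨fun _ => 0, Van.zero T, ?_⟩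
          intro u hu
          have hu0 : ¬ u * u0⁻¹ ∈ W q := fun h3 => h1 (coset_trans (coset_symm hu) h3)
          simp only [res, if_neg hu0]
      have h1 : res (W q) u0 f u0 ≠ 0 := by
        simp only [res, mul_inv_cancel, (W q).one_mem, if_true]
        exact h0
      refine le_trans (min_norm (T := T) (List.nodup_cons.mp hnd).2
        (fun r hr => hd r (List.mem_cons_of_mem _ hr))
        (fun r hr r' hr' => hW r (List.mem_cons_of_mem _ hr) r' (List.mem_cons_of_mem _ hr'))
        (fun r hr => hK r (List.mem_cons_of_mem _ hr)) hg u0 h1) (nrm_res_le _ _ _)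
    · push Not at hz
      choose! v hv1 hv2 using hz
      have hinj : Set.InjOn v (HS H q : Set G) := by
        intro h hh h' hh' he
        have hh1 : h ∈ H q := mem_HS.mp hh
        have hh1' : h' ∈ H q := mem_HS.mp hh'
        have e1 := hv1 h hh1
        have e2 := hv1 h' hh1'
        rw [← he] at e2
        have e3 : (h * u0) * (h' * u0)⁻¹ ∈ W q := coset_trans (coset_symm e1) e2
        have e4 : (h * u0) * (h' * u0)⁻¹ = h * h'⁻¹ := by
          rw [mul_inv, mul_mul_mul_comm, mul_inv_cancel, mul_one]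
        rw [e4] at e3
        have e5 : h * h'⁻¹ ∈ H q := (H q).mul_mem hh1 ((H q).inv_mem hh1')
        have e6 := (Subgroup.disjoint_def.mp (hd q (List.mem_cons_self ..))) e5 e3
        exact mul_inv_eq_one.mp e6
      have h1 : K ≤ (HS H q).card := hK q (List.mem_cons_self ..)
      have h2 : ((HS H q).card : ℤ) ≤ ∑ h ∈ HS H q, |f (v h)| := by
        rw [card_eq_sum_ones, Nat.cast_sum]
        refine sum_le_sum fun h hh => ?_
        have := hv2 h (mem_HS.mp hh)
        have := Int.one_le_abs this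
        simpa using this
      have h3 : ∑ h ∈ HS H q, |f (v h)| ≤ nrm f := by
        rw [← sum_image (f := fun u => |f u|) hinj]
        exact sum_le_univ_sum_of_nonneg fun _ => abs_nonneg _
      linarith

/-- Majority. -/
theorem majority {K L : ℤ} {q : ℕ} {T : List ℕ} {f : G → ℤ} (hd : Disjoint (H q) (W q))
    (hTW : ∀ r ∈ T, H r ≤ W q) (hmin : ∀ g : G → ℤ, Van H T g → ∀ u0, g u0 ≠ 0 → K ≤ nrm g)
    (hV : Van H (q :: T) f) (u0 : G)
    (hL : ∀ S : Finset G, (∀ u ∈ S, ∃ h ∈ H q, ∃ w ∈ W q, u = h * (w * u0)) →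
      ∑ u ∈ S, |f u| ≤ L)
    (hK : 2 * L < (HS H q).card * K) :
    ∃ h0 ∈ H q, ∀ u, u * u0⁻¹ ∈ W q →
      2 * ((HS H q).filter (fun h => f (h * u) ≠ f (h0 * u))).card < (HS H q).card := by
  set V : G → G → ℤ := fun h u => if u * u0⁻¹ ∈ W q then f (h * u) else 0 with hVdef
  set n : G → ℤ := fun h => nrm (V h) with hn
  set N : ℕ := (HS H q).card with hN
  have hNpos : 0 < N := card_HS_pos q
  -- the sum of the norms
  have hsum : ∑ h ∈ HS H q, n h ≤ L := by
    have e1 : ∀ h ∈ HS H q, n h = ∑ u ∈ univ.filter (fun u => u * u0⁻¹ ∈ W q), |f (h * u)| := by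
      intro h _
      simp only [hn, nrm, hVdef]
      rw [sum_filter]
      refine sum_congr rfl fun u _ => ?_
      split_ifs <;> simp
    rw [sum_congr rfl e1, ← sum_product']
    have hinj : Set.InjOn (fun z : G × G => z.1 * z.2)
        ((HS H q ×ˢ univ.filter (fun u => u * u0⁻¹ ∈ W q) : Finset (G × G)) : Set (G × G)) := by
      rintro ⟨h, u⟩ hz ⟨h', u'⟩ hz' he
      simp only [coe_product, Set.mem_prod, mem_coe, mem_filter, mem_univ, true_and, mem_HS] at hz hz' he
      have e1 : u * u'⁻¹ ∈ W q := coset_trans hz.2 (coset_symm hz'.2)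
      have e2 : u * u'⁻¹ = h' * h⁻¹ := by
        have : u = h⁻¹ * (h' * u') := by rw [← he, inv_mul_cancel_left]
        rw [this, mul_assoc, mul_assoc, mul_inv_cancel, mul_one, mul_comm]
      rw [e2] at e1
      have e3 : h' * h⁻¹ ∈ H q := (H q).mul_mem hz'.1 ((H q).inv_mem hz.1)
      have e4 := (Subgroup.disjoint_def.mp hd) e3 e1
      have e5 : h' = h := mul_inv_eq_one.mp e4
      subst e5
      have e6 : u = u' := mul_left_cancel he
      rw [e6]
    rw [← sum_image (f := fun u => |f u|) hinj]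
    apply hL
    intro x hx
    obtain ⟨⟨h, u⟩, hz, rfl⟩ := mem_image.mp hx
    rw [mem_product, mem_HS, mem_filter] at hz
    exact ⟨h, hz.1, u * u0⁻¹, hz.2.2, by rw [mul_assoc u, inv_mul_cancel, mul_one]⟩
  obtain ⟨h0, hh0, hmin0⟩ := exists_min_image (HS H q) n ⟨1, by simp [HS, (H q).one_mem]⟩
  refine ⟨h0, mem_HS.mp hh0, ?_⟩
  set a : ℕ := ((HS H q).filter (fun h => V h ≠ V h0)).card with ha
  -- bound of the norm for the exceptional slices
  have hbig : ∀ h ∈ (HS H q).filter (fun h => V h ≠ V h0), K - n h0 ≤ n h := by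
    intro h hh
    rw [mem_filter, mem_HS] at hh
    have hVan : Van H T (fun u => V h u - V h0 u) := by
      apply Van.ofLocal (W q) hTW
      intro u1
      by_cases h1 : u1 * u0⁻¹ ∈ W q
      · refine ⟨_, Van.sub (hV h0 (mem_HS.mp hh0)) (hV h hh.1), ?_⟩
        intro u hu
        have hu0 : u * u0⁻¹ ∈ W q := coset_trans hu h1
        simp only [hVdef, if_pos hu0]
        ring
      · refine ⟨fun _ => 0, Van.zero T, ?_⟩
        intro u hu
        have hu0 : ¬ u * u0⁻¹ ∈ W q := fun h3 => h1 (coset_trans (coset_symm hu) h3)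
        simp only [hVdef, if_neg hu0, sub_zero]
    obtain ⟨u2, hu2⟩ : ∃ u, V h u ≠ V h0 u := by
      by_contra hcon
      push Not at hcon
      exact hh.2 (funext hcon)
    have h1 := hmin _ hVan u2 (sub_ne_zero.mpr hu2)
    have h2 : nrm (fun u => V h u - V h0 u) ≤ n h + n h0 := by
      simp only [hn, nrm]
      rw [← sum_add_distrib]
      refine sum_le_sum fun u _ => abs_sub _ _
    linarith
  have hsplit : (a : ℤ) * (K - n h0) + ((N : ℤ) - a) * n h0 ≤ ∑ h ∈ HS H q, n h := by
    rw [← sum_filter_add_sum_filter_not (HS H q) (fun h => V h ≠ V h0)]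
    have e1 : (a : ℤ) * (K - n h0) ≤ ∑ h ∈ (HS H q).filter (fun h => V h ≠ V h0), n h := by
      have := card_nsmul_le_sum _ _ _ hbig
      rwa [nsmul_eq_mul] at this
    have e2 : ((N : ℤ) - a) * n h0 ≤ ∑ h ∈ (HS H q).filter (fun h => ¬ V h ≠ V h0), n h := by
      have h3 := card_nsmul_le_sum ((HS H q).filter (fun h => ¬ V h ≠ V h0)) n (n h0)
        (fun h hh => hmin0 h (mem_filter.mp hh).1)
      rw [nsmul_eq_mul] at h3
      have h4 : a + ((HS H q).filter (fun h => ¬ V h ≠ V h0)).card = N :=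
        card_filter_add_card_filter_not _
      have h5 : ((N : ℤ) - a) = (((HS H q).filter (fun h => ¬ V h ≠ V h0)).card : ℤ) := by
        rw [← h4]; push_cast; ring
      rw [h5]; exact h3
    linarith
  have hNn : (N : ℤ) * n h0 ≤ L := by
    have h3 := card_nsmul_le_sum (HS H q) n (n h0) (fun h hh => hmin0 h hh)
    rw [nsmul_eq_mul] at h3
    linarith
  have hn0 : 0 ≤ n h0 := nrm_nonneg _
  have h2n : 2 * n h0 < K := by
    have hNZ : (0 : ℤ) < N := by exact_mod_cast hNpos
    nlinarith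
  have h2a : 2 * a < N := by
    by_contra hcon
    push Not at hcon
    have hc : (0 : ℤ) ≤ 2 * a - N := by
      have : (N : ℤ) ≤ 2 * a := by exact_mod_cast hcon
      linarith
    nlinarith
  intro u hu
  refine lt_of_le_of_lt (Nat.mul_le_mul_left 2 (card_le_card ?_)) h2a
  intro h hh
  rw [mem_filter] at hh ⊢
  refine ⟨hh.1, fun e => hh.2 ?_⟩
  have := congrFun e u
  simpa only [hVdef, if_pos hu] using this

lemma nrm_shift (f : G → ℤ) (h : G) : ∑ u, |f (h * u)| = nrm f :=
  Fintype.sum_equiv (Equiv.mulLeft h) _ _ fun _ => rfl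

/-- One step of the decomposition. -/
theorem step {q : ℕ} {T : List ℕ} {f : G → ℤ} {σ : G} (hσ : ∀ u, f (σ * u) = - f u)
    (hTW : ∀ r ∈ T, H r ≤ W q) (hV : Van H (q :: T) f)
    (hmaj : ∀ u0 : G, ∃ h0 ∈ H q, ∀ u, u * u0⁻¹ ∈ W q →
      2 * ((HS H q).filter (fun h => f (h * u) ≠ f (h0 * u))).card < (HS H q).card) :
    ∃ φ : G → ℤ, (∀ h ∈ H q, ∀ u, φ (h * u) = φ u) ∧ (∀ u, φ (σ * u) = - φ u) ∧
      Van H T (fun u => f u - φ u) ∧
      ((HS H q).card : ℤ) * nrm (fun u => f u - φ u) +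
        (if Even (HS H q).card then 2 else 1) * nrm φ ≤ (HS H q).card * nrm f := by
  set N : ℕ := (HS H q).card with hN
  set P : G → ℤ → Prop := fun u v => 2 * ((HS H q).filter (fun h => f (h * u) ≠ v)).card < N with hP
  have hex : ∀ u, ∃ v, P u v := by
    intro u
    obtain ⟨h0, _, h1⟩ := hmaj u
    exact ⟨f (h0 * u), h1 u (by simp [(W q).one_mem])⟩
  have huniq : ∀ u v v', P u v → P u v' → v = v' := by
    intro u v v' h1 h2
    by_contra hne
    have h3 : HS H q ⊆ (HS H q).filter (fun h => f (h * u) ≠ v) ∪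
        (HS H q).filter (fun h => f (h * u) ≠ v') := by
      intro h hh
      rw [mem_union, mem_filter, mem_filter]
      by_cases h4 : f (h * u) = v
      · right; exact ⟨hh, by rw [h4]; exact hne⟩
      · left; exact ⟨hh, h4⟩
    have h4 := (card_le_card h3).trans (card_union_le _ _)
    simp only [hP] at h1 h2
    omega
  choose φ hφ using hex
  have hinv : ∀ k ∈ H q, ∀ u, φ (k * u) = φ u := by
    intro k hk u
    apply huniq u _ _ _ (hφ u)
    have h1 := hφ (k * u)
    simp only [hP] at h1 ⊢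
    refine lt_of_le_of_lt (Nat.mul_le_mul_left 2 ?_) h1
    apply card_le_card_of_injOn (fun h => h * k⁻¹)
    · intro h hh
      rw [mem_coe, mem_filter, mem_HS] at hh
      rw [mem_coe, mem_filter, mem_HS]
      refine ⟨(H q).mul_mem hh.1 ((H q).inv_mem hk), ?_⟩
      have : h * k⁻¹ * (k * u) = h * u := by rw [mul_assoc, inv_mul_cancel_left]
      rw [this]; exact hh.2
    · intro a _ b _ hab
      exact mul_right_cancel hab
  have hodd : ∀ u, φ (σ * u) = - φ u := by
    intro u
    apply huniq (σ * u) _ _ (hφ (σ * u))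
    have h1 := hφ u
    simp only [hP] at h1 ⊢
    refine lt_of_le_of_lt (Nat.mul_le_mul_left 2 (card_le_card ?_)) h1
    intro h hh
    rw [mem_filter] at hh ⊢
    refine ⟨hh.1, fun e => hh.2 ?_⟩
    rw [mul_left_comm, hσ, e]
  refine ⟨φ, hinv, hodd, ?_, ?_⟩
  · apply Van.ofLocal (W q) hTW
    intro u0
    obtain ⟨h0, hh0, h1⟩ := hmaj u0
    refine ⟨_, hV h0 hh0, ?_⟩
    intro u hu
    rw [huniq u _ _ (hφ u) (h1 u hu)]
  · have e1 : (N : ℤ) * nrm f = ∑ u, ∑ h ∈ HS H q, |f (h * u)| := by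
      rw [sum_comm, sum_congr rfl fun h _ => nrm_shift f h, sum_const, nsmul_eq_mul]
    have e2 : (N : ℤ) * nrm (fun u => f u - φ u) = ∑ u, ∑ h ∈ HS H q, |f (h * u) - φ u| := by
      have : ∀ u, ∑ h ∈ HS H q, |f (h * u) - φ u| =
          ∑ h ∈ HS H q, |(fun u => f u - φ u) (h * u)| := by
        intro u
        refine sum_congr rfl fun h hh => ?_
        simp only
        rw [hinv h (mem_HS.mp hh)]
      rw [sum_congr rfl fun u _ => this u, sum_comm,
        sum_congr rfl fun h _ => nrm_shift (fun u => f u - φ u) h, sum_const, nsmul_eq_mul]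
    rw [e1, e2, nrm, mul_sum, ← sum_add_distrib]
    refine sum_le_sum fun u _ => ?_
    set A := (HS H q).filter (fun h => f (h * u) ≠ φ u) with hA
    have hAc : 2 * A.card < N := hφ u
    have hA2 : A.card + ((HS H q).filter (fun h => ¬ f (h * u) ≠ φ u)).card = N :=
      card_filter_add_card_filter_not _
    rw [← sum_filter_add_sum_filter_not (HS H q) (fun h => f (h * u) ≠ φ u) (fun h => |f (h * u) - φ u|),
      ← sum_filter_add_sum_filter_not (HS H q) (fun h => f (h * u) ≠ φ u) (fun h => |f (h * u)|)]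
    have s1 : ∑ h ∈ (HS H q).filter (fun h => ¬ f (h * u) ≠ φ u), |f (h * u) - φ u| = 0 := by
      apply sum_eq_zero
      intro h hh
      rw [mem_filter, not_not] at hh
      rw [hh.2, sub_self, abs_zero]
    have s2 : ∑ h ∈ (HS H q).filter (fun h => ¬ f (h * u) ≠ φ u), |f (h * u)| =
        ((HS H q).filter (fun h => ¬ f (h * u) ≠ φ u)).card * |φ u| := by
      rw [← nsmul_eq_mul, ← sum_const]
      refine sum_congr rfl fun h hh => ?_
      rw [mem_filter, not_not] at hh
      rw [hh.2]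
    have s3 : ∑ h ∈ A, |f (h * u) - φ u| ≤ ∑ h ∈ A, |f (h * u)| + A.card * |φ u| := by
      rw [← nsmul_eq_mul, ← sum_const, ← sum_add_distrib]
      exact sum_le_sum fun h _ => abs_sub _ _
    rw [s1, s2, add_zero]
    have hab : 0 ≤ |φ u| := abs_nonneg _
    have hδ : ((if Even N then 2 else 1 : ℤ)) + A.card ≤
        (((HS H q).filter (fun h => ¬ f (h * u) ≠ φ u)).card : ℤ) := by
      split_ifs with hev
      · obtain ⟨k, hk⟩ := hev
        omega
      · omega
    nlinarith [mul_le_mul_of_nonneg_right hδ hab]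

/-- The conclusion of the decomposition. -/
def Concl (H : ℕ → Subgroup G) (σ : G) (T : List ℕ) (f : G → ℤ) : Prop :=
  ∃ φ : ℕ → G → ℤ, (∀ q ∈ T, ∀ h ∈ H q, ∀ u, φ q (h * u) = φ q u) ∧
    (∀ q ∈ T, ∀ u, φ q (σ * u) = - φ q u) ∧ (∀ u, f u = (T.map fun q => φ q u).sum) ∧
    (T.map fun q => (((if Even (HS H q).card then 2 else 1 : ℤ) * nrm (φ q) : ℤ) : ℚ) /
      (HS H q).card).sum ≤ nrm f

lemma Concl.nil {σ : G} {f : G → ℤ} (hV : Van H [] f) : Concl H σ [] f := by
  refine ⟨fun _ _ => 0, by simp, by simp, fun u => by simpa using hV u, ?_⟩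
  simp only [List.map_nil, List.sum_nil]
  exact_mod_cast nrm_nonneg f

lemma Concl.cons {σ : G} {q : ℕ} {T : List ℕ} {f : G → ℤ} (hqT : q ∉ T) (φ0 : G → ℤ)
    (h1 : ∀ h ∈ H q, ∀ u, φ0 (h * u) = φ0 u) (h2 : ∀ u, φ0 (σ * u) = - φ0 u)
    (h4 : ((HS H q).card : ℤ) * nrm (fun u => f u - φ0 u) +
        (if Even (HS H q).card then 2 else 1) * nrm φ0 ≤ (HS H q).card * nrm f)
    (hC : Concl H σ T (fun u => f u - φ0 u)) : Concl H σ (q :: T) f := by
  obtain ⟨φ, g1, g2, g3, g4⟩ := hC
  set N : ℕ := (HS H q).card with hN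
  have hNpos : (0 : ℤ) < N := by exact_mod_cast card_HS_pos q
  set δ : ℤ := if Even N then 2 else 1 with hδ
  have hupd : ∀ r ∈ T, Function.update φ q φ0 r = φ r := by
    intro r hr
    have hrq : r ≠ q := fun e => hqT (by rw [← e]; exact hr)
    exact Function.update_of_ne hrq _ _
  refine ⟨Function.update φ q φ0, ?_, ?_, ?_, ?_⟩
  · intro r hr
    rcases List.mem_cons.mp hr with rfl | hr
    · rw [Function.update_self]; exact h1
    · rw [hupd r hr]; exact g1 r hr
  · intro r hr
    rcases List.mem_cons.mp hr with rfl | hr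
    · rw [Function.update_self]; exact h2
    · rw [hupd r hr]; exact g2 r hr
  · intro u
    rw [List.map_cons, List.sum_cons, Function.update_self]
    have : (T.map fun r => Function.update φ q φ0 r u) = T.map fun r => φ r u :=
      List.map_congr_left fun r hr => by rw [hupd r hr]
    rw [this, ← g3 u]
    ring
  · rw [List.map_cons, List.sum_cons, Function.update_self]
    have : (T.map fun r => (((if Even (HS H r).card then 2 else 1 : ℤ) *
        nrm (Function.update φ q φ0 r) : ℤ) : ℚ) / (HS H r).card) =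
        T.map fun r => (((if Even (HS H r).card then 2 else 1 : ℤ) * nrm (φ r) : ℤ) : ℚ) /
          (HS H r).card :=
      List.map_congr_left fun r hr => by rw [hupd r hr]
    rw [this]
    have h5 : (((δ * nrm φ0 : ℤ) : ℚ)) / N ≤ nrm f - nrm (fun u => f u - φ0 u) := by
      have hNQ : (0 : ℚ) < N := by exact_mod_cast hNpos
      rw [div_le_iff₀ hNQ]
      have h6 : (((N : ℤ) * nrm (fun u => f u - φ0 u) + δ * nrm φ0 : ℤ) : ℚ) ≤
          ((N * nrm f : ℤ) : ℚ) := by exact_mod_cast h4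
      push_cast at h6 ⊢
      linarith
    linarith

lemma nrm_le_of {q : ℕ} {f φ0 : G → ℤ} (h4 : ((HS H q).card : ℤ) * nrm (fun u => f u - φ0 u) +
    (if Even (HS H q).card then 2 else 1) * nrm φ0 ≤ (HS H q).card * nrm f) :
    nrm (fun u => f u - φ0 u) ≤ nrm f := by
  have hNpos : (0 : ℤ) < (HS H q).card := by exact_mod_cast card_HS_pos q
  have hδ0 : (0 : ℤ) ≤ if Even (HS H q).card then 2 else 1 := by split_ifs <;> norm_num
  have h5 := mul_nonneg hδ0 (nrm_nonneg φ0)
  have h6 : ((HS H q).card : ℤ) * nrm (fun u => f u - φ0 u) ≤ (HS H q).card * nrm f := by linarith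
  exact le_of_mul_le_mul_left h6 hNpos

/-- The decomposition, relative to a list for which it is known. -/
theorem decomp_gen {σ : G} {B : ℤ} {T1 : List ℕ}
    (hT1 : ∀ f : G → ℤ, (∀ u, f (σ * u) = - f u) → Van H T1 f → nrm f ≤ B → Concl H σ T1 f) :
    ∀ (T : List ℕ) {f : G → ℤ}, (T ++ T1).Nodup →
    (∀ q ∈ T ++ T1, Disjoint (H q) (W q)) →
    (∀ q ∈ T ++ T1, ∀ r ∈ T ++ T1, q ≠ r → H r ≤ W q) →
    (∀ u, f (σ * u) = - f u) →
    (∀ q ∈ T, ∀ r ∈ T ++ T1, q ≠ r → 2 * B < (HS H q).card * (HS H r).card) → nrm f ≤ B →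
    Van H (T ++ T1) f → Concl H σ (T ++ T1) f
  | [], f, _, _, _, hσ, _, hB, hV => hT1 f hσ hV hB
  | q :: T, f, hnd, hd, hW, hσ, hK, hB, hV => by
    rw [List.cons_append] at *
    have hqT : q ∉ T ++ T1 := (List.nodup_cons.mp hnd).1
    have hTW : ∀ r ∈ T ++ T1, H r ≤ W q := by
      intro r hr
      have hrq : q ≠ r := fun e => hqT (by rw [e]; exact hr)
      exact hW q (List.mem_cons_self ..) r (List.mem_cons_of_mem _ hr) hrq
    obtain ⟨K, hK1, hK2⟩ : ∃ K : ℤ, (∀ r ∈ T ++ T1, K ≤ (HS H r).card) ∧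
        2 * nrm f < (HS H q).card * K := by
      by_cases hne : T ++ T1 = []
      · rw [hne]
        refine ⟨2 * nrm f + 1, by simp, ?_⟩
        have h1 : (1 : ℤ) ≤ (HS H q).card := by exact_mod_cast card_HS_pos q
        have h2 := nrm_nonneg f
        nlinarith
      · obtain ⟨r, hr, hrmin⟩ := (T ++ T1).toFinset.exists_min_image (fun r => (HS H r).card)
          (by
            obtain ⟨r, hr⟩ := List.exists_mem_of_ne_nil _ hne
            exact ⟨r, List.mem_toFinset.mpr hr⟩)
        refine ⟨(HS H r).card, ?_, ?_⟩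
        · intro r' hr'
          exact_mod_cast hrmin r' (List.mem_toFinset.mpr hr')
        · have hrT := List.mem_toFinset.mp hr
          have hqr : q ≠ r := fun e => hqT (by rw [e]; exact hrT)
          have := hK q (List.mem_cons_self ..) r (List.mem_cons_of_mem _ hrT) hqr
          linarith
    have hnd' := (List.nodup_cons.mp hnd).2
    have hd' : ∀ r ∈ T ++ T1, Disjoint (H r) (W r) := fun r hr => hd r (List.mem_cons_of_mem _ hr)
    have hW' : ∀ r ∈ T ++ T1, ∀ r' ∈ T ++ T1, r ≠ r' → H r' ≤ W r := fun r hr r' hr' =>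
      hW r (List.mem_cons_of_mem _ hr) r' (List.mem_cons_of_mem _ hr')
    have hmaj := fun u0 => majority (hd q (List.mem_cons_self ..)) hTW
      (fun g hg u0 hu0 => min_norm hnd' hd' hW' hK1 hg u0 hu0) hV u0
      (fun S _ => (sum_le_univ_sum_of_nonneg fun _ => abs_nonneg _ : _ ≤ nrm f)) hK2
    obtain ⟨φ0, h1, h2, h3, h4⟩ := step hσ hTW hV hmaj
    exact Concl.cons hqT φ0 h1 h2 h4 (decomp_gen hT1 T hnd' hd' hW'
      (fun u => by rw [hσ, h2]; ring)
      (fun r hr r' hr' hne => hK r (List.mem_cons_of_mem _ hr) r' (List.mem_cons_of_mem _ hr') hne)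
      ((nrm_le_of h4).trans hB) h3)

/-- The decomposition. -/
theorem decomp {σ : G} {B : ℤ} {T : List ℕ} {f : G → ℤ} (hnd : T.Nodup)
    (hd : ∀ q ∈ T, Disjoint (H q) (W q)) (hW : ∀ q ∈ T, ∀ r ∈ T, q ≠ r → H r ≤ W q)
    (hσ : ∀ u, f (σ * u) = - f u)
    (hK : ∀ q ∈ T, ∀ r ∈ T, q ≠ r → 2 * B < (HS H q).card * (HS H r).card)
    (hB : nrm f ≤ B) (hV : Van H T f) : Concl H σ T f := by
  have := decomp_gen (H := H) (W := W) (σ := σ) (B := B) (T1 := [])
    (fun f _ hV _ => Concl.nil hV) T (f := f)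
  rw [List.append_nil] at this
  exact this hnd hd hW hσ hK hB hV

end Pool.Agent.H953R3.FH
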