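import Pool.Agent.H953R3.FH.Sub

/-!
# Functions on the units from relations of the sawtooth
-/

namespace Pool.Agent.H953R3.FH

open Finset Pool.Agent.H916R2
open scoped Classical

set_option linter.unusedSectionVars false

section fourier

variable {M : ℕ} [NeZero M]

/-- Fourier transform. -/
noncomputable def hat (f : (ZMod M)ˣ → ℤ) (χ : DirichletCharacter ℂ M) : ℂ :=
  ∑ u : (ZMod M)ˣ, (f u : ℂ) * χ ((u⁻¹ : (ZMod M)ˣ) : ZMod M)

lemma hat_inversion (f : (ZMod M)ˣ → ℤ) (v : (ZMod M)ˣ) :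
    ∑ χ : DirichletCharacter ℂ M, hat f χ * χ (v : ZMod M) = (Nat.totient M : ℂ) * f v := by
  unfold hat
  simp only [sum_mul]
  rw [sum_comm]
  have h1 : ∀ u : (ZMod M)ˣ, ∑ χ : DirichletCharacter ℂ M,
      (f u : ℂ) * χ ((u⁻¹ : (ZMod M)ˣ) : ZMod M) * χ (v : ZMod M) =
      (f u : ℂ) * if u = v then (Nat.totient M : ℂ) else 0 := by
    intro u
    have h2 := DirichletCharacter.sum_char_inv_mul_char_eq ℂ u.isUnit (v : ZMod M)
    simp only [Units.val_inj] at h2
    rw [← h2, mul_sum]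
    refine sum_congr rfl fun χ _ => ?_
    rw [ZMod.inv_coe_unit, mul_assoc]
  rw [sum_congr rfl fun u _ => h1 u]
  simp [mul_comm]

lemma van_of_hat : ∀ (T : List ℕ) (f : (ZMod M)ˣ → ℤ),
    (∀ χ : DirichletCharacter ℂ M, (∀ q ∈ T, ∃ h ∈ Hq M q, χ (h : ZMod M) ≠ 1) → hat f χ = 0) →
    Van (Hq M) T f
  | [], f, hf => by
    intro v
    have h1 := hat_inversion f v
    rw [sum_eq_zero fun χ _ => by rw [hf χ (by simp), zero_mul]] at h1
    have h2 : (Nat.totient M : ℂ) ≠ 0 := by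
      exact_mod_cast (Nat.totient_pos.mpr (NeZero.pos M)).ne'
    have h3 := (mul_eq_zero.mp h1.symm).resolve_left h2
    exact_mod_cast h3
  | q :: T, f, hf => by
    intro h hh
    apply van_of_hat T
    intro χ hχ
    have h1 : hat (fun u => f u - f (h * u)) χ = (1 - χ (h : ZMod M)) * hat f χ := by
      unfold hat
      have h2 : ∑ u : (ZMod M)ˣ, (f (h * u) : ℂ) * χ ((u⁻¹ : (ZMod M)ˣ) : ZMod M) =
          χ (h : ZMod M) * ∑ u : (ZMod M)ˣ, (f u : ℂ) * χ ((u⁻¹ : (ZMod M)ˣ) : ZMod M) := by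
        rw [← Equiv.sum_comp (Equiv.mulLeft h) (fun u : (ZMod M)ˣ =>
          (f u : ℂ) * χ ((u⁻¹ : (ZMod M)ˣ) : ZMod M)), mul_sum]
        refine sum_congr rfl fun u _ => ?_
        simp only [Equiv.coe_mulLeft, mul_inv, Units.val_mul, map_mul]
        have h3 : χ (h : ZMod M) * χ ((h⁻¹ : (ZMod M)ˣ) : ZMod M) = 1 := by
          rw [← map_mul]; simp
        linear_combination - (f (h * u) : ℂ) * χ ((u⁻¹ : (ZMod M)ˣ) : ZMod M) * h3
      have h4 : ∑ u : (ZMod M)ˣ, ((f u - f (h * u) : ℤ) : ℂ) * χ ((u⁻¹ : (ZMod M)ˣ) : ZMod M) =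
          ∑ u : (ZMod M)ˣ, (f u : ℂ) * χ ((u⁻¹ : (ZMod M)ˣ) : ZMod M) -
          ∑ u : (ZMod M)ˣ, (f (h * u) : ℂ) * χ ((u⁻¹ : (ZMod M)ˣ) : ZMod M) := by
        rw [← sum_sub_distrib]
        refine sum_congr rfl fun u _ => ?_
        push_cast; ring
      rw [h4, h2]; ring
    rw [h1]
    by_cases hc : χ (h : ZMod M) = 1
    · rw [hc, sub_self, zero_mul]
    · rw [hf χ, mul_zero]
      intro r hr
      rcases List.mem_cons.mp hr with rfl | hr
      · exact ⟨h, hh, hc⟩
      · exact hχ r hr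

end fourier

section level

variable {m : ℕ} [NeZero m]

/-- relations of multisets -/
def RelS (s : Multiset (ZMod m)) : Prop :=
  ∀ t : (ZMod m)ˣ, (s.map fun a => saw ((t : ZMod m) * a)).sum = 0

lemma SS_sum_rel (χ : DirichletCharacter ℂ m) {s : Multiset (ZMod m)} (hs : RelS s) :
    (s.map (SS χ)).sum = 0 := by
  have h1 : ∀ s : Multiset (ZMod m), (s.map (SS χ)).sum = ∑ t : (ZMod m)ˣ, χ t *
      (((s.map fun a => saw ((t : ZMod m) * a)).sum : ℤ) : ℂ) := by
    intro s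
    induction s using Multiset.induction_on with
    | empty => simp
    | cons a s ih =>
      rw [Multiset.map_cons, Multiset.sum_cons, ih]
      unfold SS
      rw [← sum_add_distrib]
      refine sum_congr rfl fun t _ => ?_
      rw [Multiset.map_cons, Multiset.sum_cons]
      push_cast; ring
  rw [h1]
  apply sum_eq_zero
  intro t _
  rw [hs t]; simp

lemma SS_fix (χ : DirichletCharacter ℂ m) {t : (ZMod m)ˣ} {a : ZMod m} (h1 : (t : ZMod m) * a = a)
    (h2 : χ (t : ZMod m) ≠ 1) : SS χ a = 0 := by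
  have h3 := SS_unit χ t a
  rw [h1] at h3
  have h4 : (1 - (χ (t : ZMod m))⁻¹) * SS χ a = 0 := by linear_combination h3
  refine (mul_eq_zero.mp h4).resolve_left fun h5 => h2 ?_
  have h6 : (χ (t : ZMod m))⁻¹ = 1 := by linear_combination -h5
  exact inv_eq_one.mp h6

variable {M d : ℕ} [NeZero M]

/-- a unit with prescribed reduction, fixing `a` -/
lemma exists_fix (hd : d * M = m) {a : ZMod m} {q D : ℕ} (hq : q * D = M)
    (hN : Nat.gcd M (addOrderOf a) ∣ D) {h : (ZMod M)ˣ} (hh : h ∈ Hq M q) (hq0 : q ≠ 0) :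
    ∃ t : (ZMod m)ˣ, ZMod.unitsMap (Dvd.intro_left d hd : M ∣ m) t = h ∧ (t : ZMod m) * a = a := by
  set N := addOrderOf a with hNdef
  have hNm : N ∣ m := by
    rw [hNdef, addOrderOf_dvd_iff_nsmul_eq_zero]
    simp
  have hNpos : 0 < N := addOrderOf_pos a
  have hMm : M ∣ m := Dvd.intro_left d hd
  -- h is one modulo D
  have h1 : ((h : ZMod M).val) ≡ 1 [MOD Nat.gcd M N] := by
    rw [mem_Hq] at hh
    have h2 : (((h : ZMod M).val * q : ℕ) : ZMod M) = ((1 * q : ℕ) : ZMod M) := by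
      push_cast; rw [ZMod.natCast_zmod_val, hh, one_mul]
    have h3 : (h : ZMod M).val * q ≡ 1 * q [MOD D * q] := by
      rw [ZMod.natCast_eq_natCast_iff] at h2
      rwa [mul_comm D q, hq]
    exact (Nat.ModEq.mul_right_cancel' hq0 h3).of_dvd hN
  obtain ⟨x, hx1, hx2⟩ := Nat.chineseRemainder' h1
  -- coprime to the lcm
  have hxM : x.Coprime M := by
    have h4 : (h : ZMod M).val.Coprime M := (ZMod.val_coe_unit_coprime h)
    have := hx1.gcd_eq
    rw [Nat.coprime_iff_gcd_eq_one] at *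
    rw [this]; exact h4
  have hxN : x.Coprime N := by
    have := hx2.gcd_eq
    rw [Nat.coprime_iff_gcd_eq_one, this]
    simp
  have hxL : x.Coprime (Nat.lcm M N) := by
    have h5 : x.Coprime (M * N) := hxM.mul_right hxN
    exact h5.coprime_dvd_right (Nat.lcm_dvd_mul M N)
  have hLm : Nat.lcm M N ∣ m := Nat.lcm_dvd hMm hNm
  obtain ⟨t, ht⟩ := ZMod.unitsMap_surjective hLm (ZMod.unitOfCoprime x hxL)
  have htx : (t : ZMod m).val ≡ x [MOD Nat.lcm M N] := by
    have h6 := congrArg Units.val ht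
    rw [ZMod.unitsMap_val, ZMod.coe_unitOfCoprime, ← ZMod.natCast_val] at h6
    rwa [ZMod.natCast_eq_natCast_iff] at h6
  refine ⟨t, ?_, ?_⟩
  · ext
    rw [ZMod.unitsMap_val, ← ZMod.natCast_val, ← ZMod.natCast_zmod_val (h : ZMod M),
      ZMod.natCast_eq_natCast_iff]
    exact (htx.of_dvd (Nat.dvd_lcm_left M N)).trans hx1
  · have h7 : (t : ZMod m).val ≡ 1 [MOD N] := (htx.of_dvd (Nat.dvd_lcm_right M N)).trans hx2
    have h8 : (t : ZMod m).val • a = 1 • a := by
      rw [hNdef] at h7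
      exact (nsmul_eq_nsmul_iff_modEq).mpr h7
    rw [nsmul_eq_mul, ZMod.natCast_zmod_val, one_smul] at h8
    exact h8

/-- `χ` is nontrivial on the groups `H q`, `q` prime dividing `M`. -/
def NT (χ : DirichletCharacter ℂ M) : Prop :=
  ∀ q : ℕ, q.Prime → q ∣ M → ∃ h ∈ Hq M q, χ (h : ZMod M) ≠ 1

lemma exists_prime_step {N : ℕ} (hN : ¬ M ∣ N) :
    ∃ q D : ℕ, q.Prime ∧ q * D = M ∧ Nat.gcd M N ∣ D := by
  have hg : Nat.gcd M N ∣ M := Nat.gcd_dvd_left M N
  obtain ⟨k, hk⟩ := hg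
  have hk1 : k ≠ 1 := by
    rintro rfl
    apply hN
    rw [mul_one] at hk
    rw [hk]; exact Nat.gcd_dvd_right M N
  obtain ⟨q, hq, l, hl⟩ := Nat.exists_prime_and_dvd hk1
  exact ⟨q, Nat.gcd M N * l, hq, by
    calc q * (Nat.gcd M N * l) = Nat.gcd M N * (q * l) := by ring
      _ = M := by rw [← hl, ← hk], Dvd.intro _ rfl⟩

lemma changeLevel_val (hMm : M ∣ m) (χ : DirichletCharacter ℂ M) (t : (ZMod m)ˣ) :
    DirichletCharacter.changeLevel hMm χ (t : ZMod m) =
      χ ((ZMod.unitsMap hMm t : (ZMod M)ˣ) : ZMod M) := by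
  rw [DirichletCharacter.changeLevel_eq_cast_of_dvd, ZMod.unitsMap_val]

lemma SS_vanish (hd : d * M = m) {χ : DirichletCharacter ℂ M} (hχ : NT χ) {a : ZMod m}
    (ha : ¬ M ∣ addOrderOf a) :
    SS (DirichletCharacter.changeLevel (Dvd.intro_left d hd : M ∣ m) χ) a = 0 := by
  obtain ⟨q, D, hq, hqD, hg⟩ := exists_prime_step (M := M) ha
  obtain ⟨h, hh, hχh⟩ := hχ q hq (Dvd.intro _ hqD)
  obtain ⟨t, ht1, ht2⟩ := exists_fix hd hqD hg hh hq.ne_zero
  apply SS_fix _ ht2
  rw [changeLevel_val, ht1]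
  exact hχh

lemma sum_unitsMap {R : Type*} [AddCommMonoid R] (hMm : M ∣ m) (g : (ZMod M)ˣ → R) :
    ∃ k : ℕ, k ≠ 0 ∧ ∑ t : (ZMod m)ˣ, g (ZMod.unitsMap hMm t) = k • ∑ u, g u := by
  refine ⟨(univ.filter (fun t : (ZMod m)ˣ => ZMod.unitsMap hMm t = 1)).card, ?_, ?_⟩
  · rw [Ne, card_eq_zero, ← Ne, ← nonempty_iff_ne_empty]
    exact ⟨1, by simp⟩
  · have hs := ZMod.unitsMap_surjective hMm
    rw [← Finset.sum_fiberwise (univ : Finset (ZMod m)ˣ) (fun t => ZMod.unitsMap hMm t)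
      (fun t => g (ZMod.unitsMap hMm t)), smul_sum]
    refine sum_congr rfl fun u _ => ?_
    rw [sum_congr rfl (g := fun _ => g u) (fun t ht => by rw [(mem_filter.mp ht).2]), sum_const]
    congr 1
    have hu : u ∈ Set.range (ZMod.unitsMap hMm) := hs u
    have h1 : (1 : (ZMod M)ˣ) ∈ Set.range (ZMod.unitsMap hMm) := hs 1
    exact MonoidHom.card_fiber_eq_of_mem_range (ZMod.unitsMap hMm) hu h1

lemma SS_iota (hd : d * M = m) (χ : DirichletCharacter ℂ M) :
    ∃ k : ℂ, k ≠ 0 ∧ ∀ b : ZMod M,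
      SS (DirichletCharacter.changeLevel (Dvd.intro_left d hd : M ∣ m) χ) (iota d b) =
        k * SS χ b := by
  have hMm : M ∣ m := Dvd.intro_left d hd
  have hd0 : d ≠ 0 := by rintro rfl; rw [zero_mul] at hd; exact NeZero.ne m hd.symm
  have hs := ZMod.unitsMap_surjective hMm
  refine ⟨((univ.filter (fun t : (ZMod m)ˣ => ZMod.unitsMap hMm t = 1)).card : ℂ) * d, ?_, ?_⟩
  · refine mul_ne_zero ?_ (by exact_mod_cast hd0)
    have : (univ.filter (fun t : (ZMod m)ˣ => ZMod.unitsMap hMm t = 1)).card ≠ 0 := by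
      rw [Ne, card_eq_zero, ← Ne, ← nonempty_iff_ne_empty]
      exact ⟨1, by simp⟩
    exact_mod_cast this
  · intro b
    unfold SS
    have h1 : ∀ t : (ZMod m)ˣ, DirichletCharacter.changeLevel hMm χ (t : ZMod m) *
        (saw ((t : ZMod m) * iota d b) : ℂ) = (fun u : (ZMod M)ˣ => χ (u : ZMod M) *
          ((d : ℂ) * (saw ((u : ZMod M) * b) : ℂ))) (ZMod.unitsMap hMm t) := by
      intro t
      rw [changeLevel_val, unit_iota hd, saw_iota hd]
      push_cast; rfl
    rw [sum_congr rfl fun t _ => h1 t,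
      ← Finset.sum_fiberwise (univ : Finset (ZMod m)ˣ) (fun t => ZMod.unitsMap hMm t), mul_sum]
    refine sum_congr rfl fun u _ => ?_
    rw [sum_congr rfl (g := fun _ => χ (u : ZMod M) * ((d : ℂ) * (saw ((u : ZMod M) * b) : ℂ)))
      (fun t ht => by rw [(mem_filter.mp ht).2]), sum_const, nsmul_eq_mul]
    have hu : u ∈ Set.range (ZMod.unitsMap hMm) := hs u
    have h1 : (1 : (ZMod M)ˣ) ∈ Set.range (ZMod.unitsMap hMm) := hs 1
    rw [MonoidHom.card_fiber_eq_of_mem_range (ZMod.unitsMap hMm) hu h1]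
    ring

lemma isUnit_of_dvd_order {a : ZMod M} (hM : M ∣ addOrderOf a) : IsUnit a := by
  have h1 : IsUnit (((a.val : ℕ)) : ZMod M) := by
    rw [ZMod.isUnit_iff_coprime]
    have h2 : addOrderOf a = M / Nat.gcd M a.val := by
      have := ZMod.addOrderOf_coe a.val (NeZero.ne M)
      rw [ZMod.natCast_zmod_val] at this
      exact this
    rw [h2] at hM
    have h3 : Nat.gcd M a.val ∣ M := Nat.gcd_dvd_left _ _
    have h4 : 0 < Nat.gcd M a.val := Nat.gcd_pos_of_pos_left _ (NeZero.pos M)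
    have h5 : M ≤ M / Nat.gcd M a.val :=
      Nat.le_of_dvd (Nat.div_pos (Nat.le_of_dvd (NeZero.pos M) h3) h4) hM
    by_contra hne
    have h6 : 1 < Nat.gcd M a.val := by
      have : Nat.gcd M a.val ≠ 1 := fun h => hne (by rw [Nat.coprime_comm]; exact h)
      omega
    exact absurd h5 (not_le.mpr (Nat.div_lt_self (NeZero.pos M) h6))
  rwa [ZMod.natCast_zmod_val] at h1

lemma SS_one_ne_zero {χ : DirichletCharacter ℂ M} (hχ : NT χ) (hodd : χ.Odd) : SS χ 1 ≠ 0 := by
  intro h0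
  obtain ⟨a, ha⟩ := exists_SS_ne_zero χ hodd
  apply ha
  by_cases hM : M ∣ addOrderOf a
  · obtain ⟨u, rfl⟩ := isUnit_of_dvd_order hM
    have := SS_unit χ u 1
    rw [mul_one, h0, mul_zero] at this
    exact this
  · have h1 := SS_vanish (m := M) (d := 1) (one_mul M) hχ hM
    rwa [DirichletCharacter.changeLevel_self] at h1

lemma exists_unit_of_order (hd : d * M = m) {a : ZMod m} (ha : addOrderOf a = M) :
    ∃ u : (ZMod M)ˣ, a = iota d (u : ZMod M) := by
  have h1 : ((M : ℕ) : ZMod m) * a = 0 := by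
    rw [← nsmul_eq_mul, ← ha]
    exact addOrderOf_nsmul_eq_zero a
  have h2 : ((M * a.val : ℕ) : ZMod m) = 0 := by
    push_cast; rw [ZMod.natCast_zmod_val]; exact h1
  rw [ZMod.natCast_eq_zero_iff] at h2
  have h2' : M * d ∣ M * a.val := by
    have hm' : M * d = m := by rw [mul_comm]; exact hd
    rw [hm']; exact h2
  obtain ⟨b, hb⟩ := (Nat.mul_dvd_mul_iff_left (NeZero.pos M)).mp h2'
  have h3 : a = iota d ((b : ℕ) : ZMod M) := by
    rw [iota_natCast hd, ← hb, ZMod.natCast_zmod_val]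
  have h5 : ((addOrderOf ((b : ℕ) : ZMod M) : ℕ) : ZMod M) * ((b : ℕ) : ZMod M) = 0 := by
    rw [← nsmul_eq_mul]; exact addOrderOf_nsmul_eq_zero _
  have h6 : addOrderOf a ∣ addOrderOf ((b : ℕ) : ZMod M) := by
    rw [addOrderOf_dvd_iff_nsmul_eq_zero, h3, nsmul_eq_mul, ← iota_natMul hd, h5, iota_zero]
  have h4 : M ∣ addOrderOf ((b : ℕ) : ZMod M) := (dvd_of_eq ha.symm).trans h6
  obtain ⟨u, hu⟩ := isUnit_of_dvd_order h4
  exact ⟨u, by rw [hu]; exact h3⟩

lemma order_iota_unit (hd : d * M = m) (u : (ZMod M)ˣ) :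
    addOrderOf (iota d (u : ZMod M) : ZMod m) = M := by
  apply Nat.dvd_antisymm
  · rw [addOrderOf_dvd_iff_nsmul_eq_zero, nsmul_eq_mul, ← iota_natMul hd]
    simp [iota_zero]
  · have h1 : (addOrderOf (iota d (u : ZMod M) : ZMod m)) • (iota d (u : ZMod M) : ZMod m) = 0 :=
      addOrderOf_nsmul_eq_zero _
    rw [nsmul_eq_mul, ← iota_natMul hd] at h1
    have h2 := iota_eq_zero hd h1
    rw [Units.mul_left_eq_zero, ZMod.natCast_eq_zero_iff] at h2
    exact h2

lemma iota_injective (hd : d * M = m) : Function.Injective (iota d : ZMod M → ZMod m) := by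
  intro a b hab
  have h1 : (iota d (a + -b) : ZMod m) = 0 := by
    rw [iota_add hd, iota_neg hd, hab, add_neg_cancel]
  have := iota_eq_zero hd h1
  exact add_neg_eq_zero.mp this

/-- the signed count -/
noncomputable def sc (d : ℕ) (s : Multiset (ZMod m)) (u : (ZMod M)ˣ) : ℤ :=
  (s.count (iota d (u : ZMod M)) : ℤ) - (s.count (iota d (((-u : (ZMod M)ˣ)) : ZMod M)) : ℤ)

lemma sc_neg (s : Multiset (ZMod m)) (u : (ZMod M)ˣ) : sc d s (-1 * u) = - sc d s u := by
  unfold sc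
  rw [neg_mul, one_mul, neg_neg]
  ring

/-- sums over the elements of order `M` -/
lemma sum_order (hd : d * M = m) {R : Type*} [AddCommMonoid R] (s : Multiset (ZMod m))
    (g : ZMod m → R) :
    ((s.filter fun a => addOrderOf a = M).map g).sum =
      ∑ u : (ZMod M)ˣ, s.count (iota d (u : ZMod M)) • g (iota d (u : ZMod M)) := by
  induction s using Multiset.induction_on with
  | empty => simp
  | cons a s ih =>
    by_cases ha : addOrderOf a = M
    · obtain ⟨v, hv⟩ := exists_unit_of_order hd ha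
      rw [Multiset.filter_cons_of_pos (p := fun a => addOrderOf a = M) s ha, Multiset.map_cons, Multiset.sum_cons, ih]
      have h1 : ∀ u : (ZMod M)ˣ, (a ::ₘ s).count (iota d (u : ZMod M)) • g (iota d (u : ZMod M)) =
          (if u = v then g a else 0) +
            s.count (iota d (u : ZMod M)) • g (iota d (u : ZMod M)) := by
        intro u
        rw [Multiset.count_cons]
        by_cases huv : u = v
        · subst huv
          rw [if_pos rfl, if_pos hv.symm, add_smul, one_smul, add_comm, hv]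
        · have h2 : ¬ (iota d (u : ZMod M) : ZMod m) = a := by
            intro h3
            apply huv
            rw [hv] at h3
            exact Units.ext (iota_injective hd h3)
          rw [if_neg huv, if_neg h2, add_zero, zero_add]
      rw [sum_congr rfl fun u _ => h1 u, sum_add_distrib, sum_ite_eq', if_pos (mem_univ v)]
    · rw [Multiset.filter_cons_of_neg (p := fun a => addOrderOf a = M) s ha, ih]
      refine sum_congr rfl fun u _ => ?_
      rw [Multiset.count_cons_of_ne]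
      intro h3
      apply ha
      rw [← h3]
      exact order_iota_unit hd u

/-- The transform of the signed count, when the other elements do not contribute. -/
theorem hat_sc (hd : d * M = m) {s : Multiset (ZMod m)} (hs : RelS s)
    {χ : DirichletCharacter ℂ M}
    (hz : ∀ a ∈ s, addOrderOf a ≠ M →
      SS (DirichletCharacter.changeLevel (Dvd.intro_left d hd : M ∣ m) χ) a = 0)
    (hone : χ.Odd → SS χ 1 ≠ 0) : hat (sc (M := M) d s) χ = 0 := by
  have hMm : M ∣ m := Dvd.intro_left d hd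
  -- the plain transform
  set A : ℂ := ∑ u : (ZMod M)ˣ, (s.count (iota d (u : ZMod M)) : ℂ) *
    χ ((u⁻¹ : (ZMod M)ˣ) : ZMod M) with hA
  have hneg1 : ∀ u : (ZMod M)ˣ, χ (((-u)⁻¹ : (ZMod M)ˣ) : ZMod M) =
      χ (-1) * χ ((u⁻¹ : (ZMod M)ˣ) : ZMod M) := by
    intro u
    rw [← map_mul, inv_neg, Units.val_neg, neg_mul, one_mul]
  have hhat : hat (sc (M := M) d s) χ = (1 - χ (-1)) * A := by
    unfold hat sc
    have h1 : ∑ u : (ZMod M)ˣ, (s.count (iota d (((-u : (ZMod M)ˣ)) : ZMod M)) : ℂ) *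
        χ ((u⁻¹ : (ZMod M)ˣ) : ZMod M) = χ (-1) * A := by
      rw [hA, mul_sum, ← Equiv.sum_comp (Equiv.neg (ZMod M)ˣ)]
      refine sum_congr rfl fun u _ => ?_
      simp only [Equiv.neg_apply, neg_neg]
      rw [hneg1]
      ring
    rw [sub_mul, one_mul, ← h1, hA, ← sum_sub_distrib]
    refine sum_congr rfl fun u _ => ?_
    push_cast; ring
  rw [hhat]
  rcases χ.even_or_odd with he | ho
  · have h1 : χ (-1) = 1 := he
    rw [h1, sub_self, zero_mul]
  · set ψ := DirichletCharacter.changeLevel hMm χ with hψ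
    have h0 := SS_sum_rel ψ hs
    have hsplit : (s.map (SS ψ)).sum =
        ((s.filter fun a => addOrderOf a = M).map (SS ψ)).sum +
        ((s.filter fun a => ¬ addOrderOf a = M).map (SS ψ)).sum := by
      rw [← Multiset.sum_add, ← Multiset.map_add, Multiset.filter_add_not]
    have hz' : ((s.filter fun a => ¬ addOrderOf a = M).map (SS ψ)).sum = 0 := by
      apply Multiset.sum_eq_zero
      intro x hx
      obtain ⟨a, ha, rfl⟩ := Multiset.mem_map.mp hx
      rw [Multiset.mem_filter] at ha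
      exact hz a ha.1 ha.2
    rw [hsplit, hz', add_zero, sum_order hd] at h0
    have hval : ∀ u : (ZMod M)ˣ, SS ψ (iota d (u : ZMod M)) =
        χ ((u⁻¹ : (ZMod M)ˣ) : ZMod M) * SS ψ (iota d (1 : ZMod M)) := by
      intro u
      obtain ⟨k, hk, hk2⟩ := SS_iota hd χ
      rw [hψ, hk2, hk2]
      have h1 := SS_unit χ u 1
      rw [mul_one] at h1
      rw [h1]
      have h3 : χ (u : ZMod M) * χ ((u⁻¹ : (ZMod M)ˣ) : ZMod M) = 1 := by
        rw [← map_mul]; simp
      rw [← inv_eq_of_mul_eq_one_right h3]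
      ring
    have hne : SS ψ (iota d (1 : ZMod M)) ≠ 0 := by
      obtain ⟨k, hk, hk2⟩ := SS_iota hd χ
      rw [hψ, hk2]
      exact mul_ne_zero hk (hone ho)
    have hA0 : A * SS ψ (iota d (1 : ZMod M)) = 0 := by
      rw [← h0, hA, sum_mul]
      refine sum_congr rfl fun u _ => ?_
      rw [hval, nsmul_eq_mul]
      ring
    rw [(mul_eq_zero.mp hA0).resolve_right hne, mul_zero]

lemma hat_sc_NT (hd : d * M = m) {s : Multiset (ZMod m)} (hs : RelS s)
    (hord : ∀ a ∈ s, addOrderOf a ≤ M) {χ : DirichletCharacter ℂ M} (hNT : NT χ) :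
    hat (sc (M := M) d s) χ = 0 := by
  refine hat_sc hd hs ?_ (SS_one_ne_zero hNT)
  intro a ha hne
  apply SS_vanish hd hNT
  intro h1
  exact hne (le_antisymm (hord a ha) (Nat.le_of_dvd (addOrderOf_pos a) h1))

/-- Claim A. -/
theorem van_sc (hd : d * M = m) {s : Multiset (ZMod m)} (hs : RelS s)
    (hord : ∀ a ∈ s, addOrderOf a ≤ M) (T : List ℕ) (hT : ∀ q, q.Prime → q ∣ M → q ∈ T) :
    Van (Hq M) T (sc (M := M) d s) := by
  apply van_of_hat
  intro χ hχT
  exact hat_sc_NT hd hs hord fun q hq hqM => hχT q (hT q hq hqM)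

end level

end Pool.Agent.H953R3.FH
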