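import Pool.Agent.H953R3.FH.Main

/-!
# Integral decompositions without bounds
-/

namespace Pool.Agent.H953R3.FH

open Finset Pool.Agent.H916R2
open scoped Classical

set_option linter.unusedSectionVars false

section abstract_part

variable {G : Type*} [CommGroup G] [Fintype G] {H W : ℕ → Subgroup G}

/-- A prime with a vanishing slice can be dropped. -/
lemma van_drop {q : ℕ} {T : List ℕ} {f : G → ℤ} (hTW : ∀ r ∈ T, H r ≤ W q)
    (hV : Van H (q :: T) f)
    (hz : ∀ u0 : G, ∃ h0 ∈ H q, ∀ u, u * u0⁻¹ ∈ W q → f (h0 * u) = 0) : Van H T f := by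
  apply Van.ofLocal (W q) hTW
  intro u0
  obtain ⟨h0, hh0, h1⟩ := hz u0
  refine ⟨_, hV h0 hh0, ?_⟩
  intro u hu
  rw [h1 u hu, sub_zero]

/-- the component in `A`, up to inversion, of the elements of a group, relative to `A × B` -/
lemma exists_component (A B : Subgroup G) (hd : Disjoint A B) :
    ∃ η : G → G, (∀ u, η u ∈ A) ∧ (∀ u, ∀ w ∈ B, η (w * u) = η u) ∧
      (∀ u, ∀ k ∈ A, η (k * u) = k⁻¹ * η u) := by
  have hrep : ∀ u : G, ∃ h ∈ A, ∃ w ∈ B,
      h * w = u * ((QuotientGroup.mk u : G ⧸ (A ⊔ B)).out)⁻¹ := by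
    intro u
    have h1 : u * ((QuotientGroup.mk u : G ⧸ (A ⊔ B)).out)⁻¹ ∈ A ⊔ B := by
      have h2 : (QuotientGroup.mk ((QuotientGroup.mk u : G ⧸ (A ⊔ B)).out) : G ⧸ (A ⊔ B)) =
          QuotientGroup.mk u := QuotientGroup.out_eq' _
      rw [QuotientGroup.eq] at h2
      rwa [mul_comm] at h2
    exact Subgroup.mem_sup.mp h1
  choose h hh w hw e using hrep
  have huniq : ∀ x ∈ A, ∀ x' ∈ A, ∀ y ∈ B, ∀ y' ∈ B, x * y = x' * y' → x = x' := by
    intro x hx x' hx' y hy y' hy' he
    have h1 : x'⁻¹ * x = y' * y⁻¹ := by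
      have : x = x' * y' * y⁻¹ := by rw [← he, mul_assoc, mul_inv_cancel, mul_one]
      rw [this]; group
    have h2 : x'⁻¹ * x ∈ A := A.mul_mem (A.inv_mem hx') hx
    have h3 : x'⁻¹ * x ∈ B := by rw [h1]; exact B.mul_mem hy' (B.inv_mem hy)
    have h4 := (Subgroup.disjoint_def.mp hd) h2 h3
    exact (inv_mul_eq_one.mp h4).symm
  have hout : ∀ u v : G, v * u⁻¹ ∈ A ⊔ B →
      (QuotientGroup.mk v : G ⧸ (A ⊔ B)).out = (QuotientGroup.mk u : G ⧸ (A ⊔ B)).out := by
    intro u v huv
    congr 1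
    rw [QuotientGroup.eq]
    have := (A ⊔ B).inv_mem huv
    rwa [mul_inv, inv_inv] at this
  refine ⟨fun u => (h u)⁻¹, fun u => A.inv_mem (hh u), ?_, ?_⟩
  · intro u w' hw'
    simp only
    congr 1
    have h1 := e (w' * u)
    rw [hout u (w' * u) (by
      rw [mul_assoc, mul_inv_cancel, mul_one]
      exact (le_sup_right : B ≤ A ⊔ B) hw')] at h1
    refine huniq (h (w' * u)) (hh _) (h u) (hh _) (w (w' * u)) (hw _) (w' * w u)
      (B.mul_mem hw' (hw u)) ?_
    rw [h1, mul_left_comm (h u) w' (w u), e u, mul_assoc]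
  · intro u k hk
    simp only
    rw [← mul_inv]
    congr 1
    have h1 := e (k * u)
    rw [hout u (k * u) (by
      rw [mul_assoc, mul_inv_cancel, mul_one]
      exact (le_sup_left : A ≤ A ⊔ B) hk)] at h1
    refine huniq (h (k * u)) (hh _) (k * h u) (A.mul_mem hk (hh u)) (w (k * u)) (hw _) (w u)
      (hw u) ?_
    rw [h1, mul_assoc k u, mul_assoc k (h u), e u]

/-- Integral decomposition. -/
theorem int_decomp (U : Subgroup G) : ∀ (T : List ℕ) {f : G → ℤ}, T.Nodup →
    (∀ q ∈ T, Disjoint (H q) (W q)) → (∀ q ∈ T, ∀ r ∈ T, q ≠ r → H r ≤ W q) →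
    (∀ q ∈ T, H q ≤ U) → Van H T f →
    ∃ φ : ℕ → G → ℤ, (∀ q ∈ T, ∀ h ∈ H q, ∀ u, φ q (h * u) = φ q u) ∧
      (∀ u, f u = (T.map fun q => φ q u).sum) ∧
      (∀ q ∈ T, ∀ u, φ q u ≠ 0 → ∃ k ∈ U, f (k * u) ≠ 0)
  | [], f, _, _, _, _, hV => ⟨fun _ _ => 0, by simp, fun u => by simpa using hV u, by simp⟩
  | q :: T, f, hnd, hd, hW, hU, hV => by
    have hqT : q ∉ T := (List.nodup_cons.mp hnd).1
    have hTW : ∀ r ∈ T, H r ≤ W q := by
      intro r hr
      have hrq : q ≠ r := fun e => hqT (by rw [e]; exact hr)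
      exact hW q (List.mem_cons_self ..) r (List.mem_cons_of_mem _ hr) hrq
    obtain ⟨η, e1, e2, e3⟩ := exists_component (H q) (W q) (hd q (List.mem_cons_self ..))
    have hqU : H q ≤ U := hU q (List.mem_cons_self ..)
    have hV' : Van H T (fun u => f u - f (η u * u)) := by
      apply Van.ofLocal (W q) hTW
      intro u0
      refine ⟨_, hV (η u0) (e1 u0), ?_⟩
      intro u hu
      have h1 : η u = η u0 := by
        have := e2 u0 _ hu
        rwa [mul_assoc, inv_mul_cancel, mul_one] at this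
      rw [h1]
    obtain ⟨φ, g1, g2, g3⟩ := int_decomp U T (List.nodup_cons.mp hnd).2
      (fun r hr => hd r (List.mem_cons_of_mem _ hr))
      (fun r hr r' hr' => hW r (List.mem_cons_of_mem _ hr) r' (List.mem_cons_of_mem _ hr'))
      (fun r hr => hU r (List.mem_cons_of_mem _ hr)) hV'
    have hupd : ∀ r ∈ T, Function.update φ q (fun u => f (η u * u)) r = φ r := by
      intro r hr
      have hrq : r ≠ q := fun e => hqT (by rw [← e]; exact hr)
      exact Function.update_of_ne hrq _ _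
    refine ⟨Function.update φ q (fun u => f (η u * u)), ?_, ?_, ?_⟩
    · intro r hr h hh u
      rcases List.mem_cons.mp hr with hr | hr
      · subst hr
        rw [Function.update_self]
        rw [e3 u h hh]
        congr 1
        rw [mul_assoc, mul_left_comm (η u), inv_mul_cancel_left]
      · rw [hupd r hr]; exact g1 r hr h hh u
    · intro u
      rw [List.map_cons, List.sum_cons, Function.update_self]
      have : (T.map fun r => Function.update φ q (fun u => f (η u * u)) r u) =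
          T.map fun r => φ r u :=
        List.map_congr_left fun r hr => by rw [hupd r hr]
      rw [this, ← g2 u]
      ring
    · intro r hr u hne
      rcases List.mem_cons.mp hr with hr | hr
      · subst hr
        rw [Function.update_self] at hne
        exact ⟨η u, hqU (e1 u), hne⟩
      · rw [hupd r hr] at hne
        obtain ⟨k, hk, hne'⟩ := g3 r hr u hne
        by_cases h0 : f (k * u) = 0
        · rw [h0, zero_sub, neg_ne_zero] at hne'
          exact ⟨η (k * u) * k, U.mul_mem (hqU (e1 _)) hk, by rw [mul_assoc]; exact hne'⟩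
        · exact ⟨k, hk, h0⟩

/-- a system of representatives modulo an element outside of a subgroup -/
lemma exists_half (U : Subgroup G) {σ : G} (hσ : σ ∉ U) (hσ2 : σ * σ = 1) :
    ∃ P : G → Prop, (∀ k ∈ U, ∀ u, P (k * u) ↔ P u) ∧ (∀ u, P (σ * u) ↔ ¬ P u) := by
  let e : G ⧸ U → ℕ := fun x => (Fintype.equivFin (G ⧸ U) x : ℕ)
  have he : Function.Injective e := fun x y h =>
    (Fintype.equivFin (G ⧸ U)).injective (Fin.ext h)
  have hmk : ∀ k ∈ U, ∀ u : G, (QuotientGroup.mk (k * u) : G ⧸ U) = QuotientGroup.mk u := by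
    intro k hk u
    rw [QuotientGroup.eq, mul_inv, mul_comm k⁻¹, mul_assoc, mul_comm u⁻¹, mul_assoc,
      mul_inv_cancel, mul_one]
    exact U.inv_mem hk
  refine ⟨fun u => e (QuotientGroup.mk u) < e (QuotientGroup.mk (σ * u)), ?_, ?_⟩
  · intro k hk u
    simp only
    rw [hmk k hk u, mul_left_comm, hmk k hk (σ * u)]
  · intro u
    simp only
    have h1 : σ * (σ * u) = u := by rw [← mul_assoc, hσ2, one_mul]
    rw [h1, not_lt]
    have h2 : e (QuotientGroup.mk (σ * u)) ≠ e (QuotientGroup.mk u) := by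
      intro h
      have h3 := he h
      rw [QuotientGroup.eq, mul_inv, mul_assoc, inv_mul_cancel, mul_one] at h3
      have := U.inv_mem h3
      rw [inv_inv] at this
      exact hσ this
    omega

/-- Odd integral decomposition. -/
theorem odd_int_decomp (U : Subgroup G) {σ : G} (hσU : σ ∉ U) (hσ2 : σ * σ = 1) (T : List ℕ)
    {f : G → ℤ} (hnd : T.Nodup)
    (hd : ∀ q ∈ T, Disjoint (H q) (W q)) (hW : ∀ q ∈ T, ∀ r ∈ T, q ≠ r → H r ≤ W q)
    (hU : ∀ q ∈ T, H q ≤ U) (hσ : ∀ u, f (σ * u) = - f u) (hV : Van H T f) :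
    ∃ φ : ℕ → G → ℤ, (∀ q ∈ T, ∀ h ∈ H q, ∀ u, φ q (h * u) = φ q u) ∧
      (∀ q ∈ T, ∀ u, φ q (σ * u) = - φ q u) ∧
      (∀ u, f u = (T.map fun q => φ q u).sum) ∧
      (∀ q ∈ T, ∀ u, φ q u ≠ 0 → ∃ k ∈ U, f (k * u) ≠ 0) := by
  obtain ⟨φ, g1, g2, g3⟩ := int_decomp (H := H) (W := W) U T hnd hd hW hU hV
  obtain ⟨P, hP1, hP2⟩ := exists_half U hσU hσ2
  have hss : ∀ u : G, σ * (σ * u) = u := fun u => by rw [← mul_assoc, hσ2, one_mul]
  refine ⟨fun q u => if P u then φ q u else - φ q (σ * u), ?_, ?_, ?_, ?_⟩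
  · intro q hq h hh u
    simp only
    rw [if_congr (hP1 h (hU q hq hh) u) rfl rfl, g1 q hq h hh u, mul_left_comm, g1 q hq h hh]
  · intro q _ u
    simp only
    by_cases h : P u
    · rw [if_pos h, if_neg (fun h' => (hP2 u).mp h' h), hss]
    · rw [if_neg h, if_pos ((hP2 u).mpr h), neg_neg]
  · intro u
    by_cases h : P u
    · simp only [if_pos h]
      exact g2 u
    · simp only [if_neg h]
      have h1 := g2 (σ * u)
      rw [hσ] at h1
      have h2 : ∀ T : List ℕ, (T.map fun q => - φ q (σ * u)).sum =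
          - (T.map fun q => φ q (σ * u)).sum := by
        intro T
        induction T with
        | nil => simp
        | cons q T ih => rw [List.map_cons, List.sum_cons, ih, List.map_cons, List.sum_cons]; ring
      rw [h2, ← h1, neg_neg]
  · intro q hq u hne
    simp only at hne
    by_cases h : P u
    · rw [if_pos h] at hne
      exact g3 q hq u hne
    · rw [if_neg h, neg_ne_zero] at hne
      obtain ⟨k, hk, h1⟩ := g3 q hq _ hne
      refine ⟨k, hk, ?_⟩
      rw [mul_left_comm, hσ, neg_ne_zero] at h1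
      exact h1

end abstract_part

end Pool.Agent.H953R3.FH
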