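import Pool.Agent.H953R3.FH.Int

/-!
# Labels
-/

namespace Pool.Agent.H953R3.FH

open Finset Pool.Agent.H916R2
open scoped Classical

set_option linter.unusedSectionVars false

section lower

variable {M : ℕ} [NeZero M]

theorem orbit_lab {q D : ℕ} (h : q * D = M) (hq : q.Prime) (κ : (ZMod M)ˣ) :
    ∃ ν : Multiset (ZMod M), (∀ b ∈ ν, (D : ZMod M) * b = 0) ∧
      (∀ b ∈ ν, b = (q : ZMod M) * κ ∨
        (¬ q ∣ D ∧ ∃ i : ℕ, b = - (((1 + i * D : ℕ) : ZMod M) * (κ : ZMod M)))) ∧
      ∀ (Q : Type) [AddCommGroup Q] (c : ZMod M → Q), OddDist c →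
        ∑ u ∈ HS (Hq M) q, c ((u * κ : (ZMod M)ˣ) : ZMod M) = (ν.map c).sum := by
  have hM0 : ((q * D : ℕ) : ZMod M) = 0 := by rw [h]; simp
  have hfull : ∀ (Q : Type) [AddCommGroup Q] (c : ZMod M → Q), OddDist c →
      ∑ i ∈ range q, c (((1 + i * D : ℕ) : ZMod M) * (κ : ZMod M)) =
        c ((q : ZMod M) * (κ : ZMod M)) := by
    intro Q _ c hc
    rw [← hc.dist q D hq h]
    have h3 := coset_sum_unit c h κ 1
    rw [mul_one] at h3
    rw [← h3]
    refine sum_congr rfl fun i _ => ?_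
    congr 1
    push_cast; ring
  have hsum : ∀ (Q : Type) [AddCommGroup Q] (c : ZMod M → Q),
      ∑ u ∈ HS (Hq M) q, c ((u * κ : (ZMod M)ˣ) : ZMod M) =
      ∑ i ∈ (range q).filter (fun i => ¬ q ∣ 1 + i * D),
        c (((1 + i * D : ℕ) : ZMod M) * (κ : ZMod M)) := by
    intro Q _ c
    rw [← sum_HS h hq (fun x => c (x * (κ : ZMod M)))]
    rfl
  by_cases hD : q ∣ D
  · refine ⟨{(q : ZMod M) * κ}, ?_, ?_, ?_⟩
    · intro b hb
      rw [Multiset.mem_singleton] at hb
      rw [hb]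
      push_cast at hM0
      linear_combination (κ : ZMod M) * hM0
    · intro b hb
      rw [Multiset.mem_singleton] at hb
      exact Or.inl hb
    · intro Q _ c hc
      rw [hsum, filter_eq_range hq hD, hfull Q c hc, Multiset.map_singleton,
        Multiset.sum_singleton]
  · obtain ⟨i0, hi0, hd0, he⟩ := filter_eq_erase hq hD
    refine ⟨{(q : ZMod M) * κ, - (((1 + i0 * D : ℕ) : ZMod M) * (κ : ZMod M))}, ?_, ?_, ?_⟩
    · intro b hb
      rw [Multiset.insert_eq_cons, Multiset.mem_cons, Multiset.mem_singleton] at hb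
      rcases hb with hb | hb
      · rw [hb]
        push_cast at hM0
        linear_combination (κ : ZMod M) * hM0
      · rw [hb]
        obtain ⟨k, hk⟩ := hd0
        rw [hk]
        push_cast at hM0 ⊢
        linear_combination - (k : ZMod M) * (κ : ZMod M) * hM0
    · intro b hb
      rw [Multiset.insert_eq_cons, Multiset.mem_cons, Multiset.mem_singleton] at hb
      rcases hb with hb | hb
      · exact Or.inl hb
      · exact Or.inr ⟨hD, i0, hb⟩
    · intro Q _ c hc
      have h5 := add_sum_erase (range q)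
        (fun i => c (((1 + i * D : ℕ) : ZMod M) * (κ : ZMod M))) (mem_range.mpr hi0)
      rw [hfull Q c hc] at h5
      rw [hsum, he, Multiset.insert_eq_cons, Multiset.map_cons, Multiset.sum_cons,
        Multiset.map_singleton, Multiset.sum_singleton, hc.neg, ← h5]
      abel

/-- Lowering, with control of the elements. -/
theorem lowering_lab {q D : ℕ} (h : q * D = M) (hq : q.Prime) :
    ∀ (N : ℕ) (w : (ZMod M)ˣ → ℕ), ∑ u, w u = N → (∀ k ∈ Hq M q, ∀ u, w (k * u) = w u) →
    ∃ ν : Multiset (ZMod M),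
      (∀ b ∈ ν, (D : ZMod M) * b = 0) ∧
      (∀ b ∈ ν, ∃ κ : (ZMod M)ˣ, w κ ≠ 0 ∧ (b = (q : ZMod M) * κ ∨
        (¬ q ∣ D ∧ ∃ i : ℕ, b = - (((1 + i * D : ℕ) : ZMod M) * (κ : ZMod M))))) ∧
      ∀ (Q : Type) [AddCommGroup Q] (c : ZMod M → Q), OddDist c →
        ∑ u, w u • c (u : ZMod M) = (ν.map c).sum := by
  intro N
  induction N using Nat.strong_induction_on with
  | _ N ih =>
  intro w hN hw
  by_cases hz : ∀ u, w u = 0
  · refine ⟨0, by simp, by simp, ?_⟩
    intro Q _ c _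
    simp [hz]
  · push Not at hz
    obtain ⟨κ, hκ⟩ := hz
    set O : Finset (ZMod M)ˣ := univ.filter (fun u => u * κ⁻¹ ∈ Hq M q) with hO
    have hwO : ∀ u ∈ O, w u = w κ := by
      intro u hu
      have h3 := hw _ (mem_filter.mp hu).2 κ
      rwa [mul_assoc, inv_mul_cancel, mul_one] at h3
    have hsumO : ∀ {Q : Type} [AddCommMonoid Q] (g : (ZMod M)ˣ → Q),
        ∑ u ∈ O, g u = ∑ k ∈ HS (Hq M) q, g (k * κ) := by
      intro Q _ g
      symm
      refine Finset.sum_bij (fun k _ => k * κ) ?_ ?_ ?_ ?_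
      · intro k hk
        rw [hO, mem_filter]
        refine ⟨mem_univ _, ?_⟩
        rw [mul_assoc, mul_inv_cancel, mul_one]
        exact mem_HS.mp hk
      · intro a _ b _ hab
        exact mul_right_cancel hab
      · intro u hu
        exact ⟨u * κ⁻¹, mem_HS.mpr (mem_filter.mp hu).2, by
          rw [mul_assoc, inv_mul_cancel, mul_one]⟩
      · intro k _
        rfl
    set w' : (ZMod M)ˣ → ℕ := fun u => w u - (if u ∈ O then 1 else 0) with hw'
    have hww : ∀ u, w u = w' u + (if u ∈ O then 1 else 0) := by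
      intro u
      simp only [hw']
      split_ifs with hu
      · have := hwO u hu
        omega
      · omega
    have hinv : ∀ k ∈ Hq M q, ∀ u, w' (k * u) = w' u := by
      intro k hk u
      simp only [hw']
      rw [hw k hk u]
      have : (k * u ∈ O) ↔ (u ∈ O) := by
        rw [hO, mem_filter, mem_filter, mul_assoc]
        simp only [mem_univ, true_and]
        exact Subgroup.mul_mem_cancel_left _ hk
      simp only [this]
    have hcard : O.card = (HS (Hq M) q).card := by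
      have := hsumO (fun _ => (1 : ℕ))
      rwa [← card_eq_sum_ones, ← card_eq_sum_ones] at this
    have hpos : 0 < (HS (Hq M) q).card := card_HS_pos q
    have hN' : N = ∑ u, w' u + (HS (Hq M) q).card := by
      rw [← hN, sum_congr rfl fun u _ => hww u, sum_add_distrib]
      congr 1
      rw [← hcard, card_eq_sum_ones, sum_ite_mem, univ_inter]
    obtain ⟨ν1, a2, a1, a3⟩ := ih (∑ u, w' u) (by omega) w' rfl hinv
    obtain ⟨ν2, b2, b1, b3⟩ := orbit_lab h hq κ
    refine ⟨ν1 + ν2, ?_, ?_, ?_⟩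
    · intro b hb
      rcases Multiset.mem_add.mp hb with hb | hb
      · exact a2 b hb
      · exact b2 b hb
    · intro b hb
      rcases Multiset.mem_add.mp hb with hb | hb
      · obtain ⟨κ', hκ', h5⟩ := a1 b hb
        refine ⟨κ', ?_, h5⟩
        have := hww κ'
        omega
      · exact ⟨κ, hκ, b1 b hb⟩
    · intro Q _ c hc
      rw [Multiset.map_add, Multiset.sum_add, ← a3 Q c hc, ← b3 Q c hc,
        ← hsumO (fun u => c (u : ZMod M))]
      have : ∀ u : (ZMod M)ˣ, w u • c (u : ZMod M) = w' u • c (u : ZMod M) +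
          (if u ∈ O then c (u : ZMod M) else 0) := by
        intro u
        rw [hww u, add_smul]
        congr 1
        split_ifs <;> simp
      rw [sum_congr rfl fun u _ => this u, sum_add_distrib]
      congr 1
      rw [sum_ite_mem, univ_inter]

end lower

section labels

variable {m : ℕ} [NeZero m]

/-- The labels reachable from the elements of `s0` at order `D`. -/
noncomputable def Rl (a : ℕ) (s0 : Multiset (ZMod m)) (D : ℕ) : Finset (ZMod m) :=
  ((s0.toFinset ×ˢ a.primeFactors.powerset).filter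
    (fun z => D * (∏ p ∈ z.2, p) ∣ addOrderOf z.1 ∧ Nat.Coprime (∏ p ∈ z.2, p) D)).image
    (fun z => ((addOrderOf z.1 / (D * ∏ p ∈ z.2, p) : ℕ) : ZMod m) * ((a : ZMod m) * z.1))

lemma Rl_card (a : ℕ) (s0 : Multiset (ZMod m)) (D : ℕ) :
    (Rl a s0 D).card ≤ Multiset.card s0 * 2 ^ a.primeFactors.card := by
  unfold Rl
  refine card_image_le.trans ((card_filter_le _ _).trans ?_)
  rw [card_product, card_powerset]
  exact Nat.mul_le_mul_right _ (Multiset.toFinset_card_le s0)

lemma Rl_init (a : ℕ) {s0 : Multiset (ZMod m)} {x : ZMod m} (hx : x ∈ s0) :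
    (a : ZMod m) * x ∈ Rl a s0 (addOrderOf x) := by
  unfold Rl
  rw [mem_image]
  refine ⟨(x, ∅), ?_, ?_⟩
  · rw [mem_filter, mem_product]
    refine ⟨⟨Multiset.mem_toFinset.mpr hx, by simp⟩, by simp, by simp⟩
  · simp only [prod_empty, mul_one]
    rw [Nat.div_self (addOrderOf_pos x)]
    simp

lemma Rl_mul {a : ℕ} {s0 : Multiset (ZMod m)} {p D : ℕ} (hp : 0 < p) (hD : 0 < D) {y : ZMod m}
    (hy : y ∈ Rl a s0 (p * D)) : (p : ZMod m) * y ∈ Rl a s0 D := by
  unfold Rl at hy ⊢
  rw [mem_image] at hy ⊢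
  obtain ⟨⟨x, P⟩, hz, rfl⟩ := hy
  rw [mem_filter] at hz
  obtain ⟨h1, h2, h3⟩ := hz
  simp only at h2 h3 ⊢
  set ε := ∏ p ∈ P, p with hε
  obtain ⟨k, hk⟩ := h2
  have hεpos : 0 < ε := by
    rcases Nat.eq_zero_or_pos ε with h | h
    · rw [h, mul_zero, zero_mul] at hk
      have := addOrderOf_pos x
      omega
    · exact h
  refine ⟨(x, P), ?_, ?_⟩
  · rw [mem_filter]
    refine ⟨h1, ?_, ?_⟩
    · simp only
      rw [hk, ← hε]
      exact ⟨p * k, by ring⟩
    · simp only
      exact Nat.Coprime.coprime_dvd_right (Dvd.intro_left p rfl) h3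
  · simp only
    rw [← hε, hk]
    have e1 : p * D * ε * k / (D * ε) = p * k := by
      rw [show p * D * ε * k = (D * ε) * (p * k) by ring]
      exact Nat.mul_div_cancel_left _ (by positivity)
    have e2 : p * D * ε * k / (p * D * ε) = k :=
      Nat.mul_div_cancel_left _ (by positivity)
    rw [e1, e2]
    push_cast; ring

lemma Rl_keep {a : ℕ} (ha : a ≠ 0) {s0 : Multiset (ZMod m)} {p D : ℕ} (hp : p.Prime)
    (hpa : p ∣ a) (hpD : ¬ p ∣ D) {y : ZMod m} (hy : y ∈ Rl a s0 (p * D)) : y ∈ Rl a s0 D := by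
  unfold Rl at hy ⊢
  rw [mem_image] at hy ⊢
  obtain ⟨⟨x, P⟩, hz, rfl⟩ := hy
  rw [mem_filter, mem_product, mem_powerset] at hz
  obtain ⟨⟨h0, h1⟩, h2, h3⟩ := hz
  simp only at h0 h1 h2 h3 ⊢
  have hpP : p ∉ P := by
    intro h
    have h4 : p ∣ ∏ p ∈ P, p := dvd_prod_of_mem _ h
    have h5 : Nat.Coprime p (p * D) := h3.coprime_dvd_left h4
    have h6 := Nat.Coprime.eq_one_of_dvd h5 (Dvd.intro _ rfl)
    exact hp.one_lt.ne' h6
  have hprod : ∏ r ∈ insert p P, r = p * ∏ r ∈ P, r := prod_insert hpP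
  refine ⟨(x, insert p P), ?_, ?_⟩
  · rw [mem_filter, mem_product, mem_powerset]
    refine ⟨⟨h0, ?_⟩, ?_, ?_⟩
    · simp only
      rw [insert_subset_iff]
      exact ⟨Nat.mem_primeFactors.mpr ⟨hp, hpa, ha⟩, h1⟩
    · simp only
      rw [hprod]
      have : D * (p * ∏ r ∈ P, r) = p * D * ∏ r ∈ P, r := by ring
      rw [this]; exact h2
    · simp only
      rw [hprod]
      exact Nat.Coprime.mul_left ((hp.coprime_iff_not_dvd).mpr hpD)
        (Nat.Coprime.coprime_dvd_right (Dvd.intro_left p rfl) h3)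
  · simp only
    rw [hprod]
    have : D * (p * ∏ r ∈ P, r) = p * D * ∏ r ∈ P, r := by ring
    rw [this]

/-- labels up to sign -/
def PR (a : ℕ) (s0 : Multiset (ZMod m)) (D : ℕ) (y : ZMod m) : Prop :=
  y ∈ Rl a s0 D ∨ -y ∈ Rl a s0 D

lemma PR.neg {a : ℕ} {s0 : Multiset (ZMod m)} {D : ℕ} {y : ZMod m} (h : PR a s0 D y) :
    PR a s0 D (-y) := by
  rcases h with h | h
  · right; rwa [neg_neg]
  · left; exact h

lemma PR.mul {a : ℕ} {s0 : Multiset (ZMod m)} {p D : ℕ} (hp : 0 < p) (hD : 0 < D) {y : ZMod m}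
    (h : PR a s0 (p * D) y) : PR a s0 D ((p : ZMod m) * y) := by
  rcases h with h | h
  · left; exact Rl_mul hp hD h
  · right
    have := Rl_mul hp hD h
    rwa [mul_neg] at this

lemma PR.keep {a : ℕ} (ha : a ≠ 0) {s0 : Multiset (ZMod m)} {p D : ℕ} (hp : p.Prime)
    (hpa : p ∣ a) (hpD : ¬ p ∣ D) {y : ZMod m} (h : PR a s0 (p * D) y) : PR a s0 D y := by
  rcases h with h | h
  · left; exact Rl_keep ha hp hpa hpD h
  · right; exact Rl_keep ha hp hpa hpD h

/-- All elements whose order does not divide `a` are labelled. -/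
def Lab (a : ℕ) (s0 s : Multiset (ZMod m)) : Prop :=
  ∀ x ∈ s, ¬ addOrderOf x ∣ a → PR a s0 (addOrderOf x) ((a : ZMod m) * x)

lemma Lab.init (a : ℕ) (s0 : Multiset (ZMod m)) : Lab a s0 s0 := fun _ hx _ => Or.inl (Rl_init a hx)

end labels

end Pool.Agent.H953R3.FH
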