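import Pool.Agent.H953R3.FH.Sub

/-!
# Lowering the order with the distribution relations
-/

namespace Pool.Agent.H953R3.FH

open Finset Pool.Agent.H916R2
open scoped Classical

set_option linter.unusedSectionVars false

variable {M : ℕ} [NeZero M]

lemma natCast_inj {q D : ℕ} (h : q * D = M) {i j : ℕ} (hi : i < q) (hj : j < q)
    (he : ((1 + i * D : ℕ) : ZMod M) = ((1 + j * D : ℕ) : ZMod M)) : i = j := by
  have hM : 0 < M := NeZero.pos M
  have hD : 0 < D := Nat.pos_of_ne_zero (by rintro rfl; simp at h; omega)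
  push_cast at he
  have h1 : ((i * D : ℕ) : ZMod M) = ((j * D : ℕ) : ZMod M) := by
    push_cast; exact add_left_cancel he
  rw [ZMod.natCast_eq_natCast_iff', Nat.mod_eq_of_lt, Nat.mod_eq_of_lt] at h1
  · exact Nat.eq_of_mul_eq_mul_right hD h1
  · rw [← h]; exact Nat.mul_lt_mul_of_pos_right hj hD
  · rw [← h]; exact Nat.mul_lt_mul_of_pos_right hi hD

lemma sum_HS {Q : Type*} [AddCommMonoid Q] {q D : ℕ} (h : q * D = M) (hq : q.Prime)
    (g : ZMod M → Q) :
    ∑ u ∈ HS (Hq M) q, g (u : ZMod M) =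
      ∑ i ∈ (range q).filter (fun i => ¬ q ∣ 1 + i * D), g ((1 + i * D : ℕ) : ZMod M) := by
  symm
  refine Finset.sum_bij
    (fun i hi => (unit_of h i (mem_filter.mp hi).2 hq).choose) ?_ ?_ ?_ ?_
  · intro i hi
    exact mem_HS.mpr (unit_of h i (mem_filter.mp hi).2 hq).choose_spec.1
  · intro i hi j hj he
    have h1 := (unit_of h i (mem_filter.mp hi).2 hq).choose_spec.2
    have h2 := (unit_of h j (mem_filter.mp hj).2 hq).choose_spec.2
    rw [he, h2] at h1
    exact (natCast_inj h (mem_range.mp (mem_filter.mp hj).1)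
      (mem_range.mp (mem_filter.mp hi).1) h1).symm
  · intro u hu
    obtain ⟨i, hi, hiu⟩ := exists_of_mem_Hq h hq (mem_HS.mp hu)
    have hnd : ¬ q ∣ 1 + i * D := by
      intro hd
      have hun : IsUnit ((1 + i * D : ℕ) : ZMod M) := by rw [← hiu]; exact u.isUnit
      rw [ZMod.isUnit_iff_coprime] at hun
      have h3 : q ∣ Nat.gcd (1 + i * D) M := Nat.dvd_gcd hd (Dvd.intro _ h)
      rw [hun.gcd_eq_one] at h3
      exact hq.one_lt.ne' (Nat.dvd_one.mp h3)
    refine ⟨i, mem_filter.mpr ⟨mem_range.mpr hi, hnd⟩, ?_⟩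
    ext
    rw [(unit_of h i hnd hq).choose_spec.2, hiu]
  · intro i hi
    rw [(unit_of h i (mem_filter.mp hi).2 hq).choose_spec.2]

lemma filter_eq_range {q D : ℕ} (hq : q.Prime) (hD : q ∣ D) :
    (range q).filter (fun i => ¬ q ∣ 1 + i * D) = range q := by
  rw [filter_true_of_mem]
  intro i _ hd
  have h1 : q ∣ i * D := hD.mul_left i
  have h2 : q ∣ 1 := (Nat.dvd_add_left h1).mp hd
  exact hq.one_lt.ne' (Nat.dvd_one.mp h2)

lemma filter_eq_erase {q D : ℕ} (hq : q.Prime) (hD : ¬ q ∣ D) :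
    ∃ i0 < q, q ∣ 1 + i0 * D ∧
      (range q).filter (fun i => ¬ q ∣ 1 + i * D) = (range q).erase i0 := by
  have := Fact.mk hq
  have hD0 : (D : ZMod q) ≠ 0 := by
    rw [Ne, ZMod.natCast_eq_zero_iff]; exact hD
  have hiff : ∀ i : ℕ, q ∣ 1 + i * D ↔ (i : ZMod q) = - (D : ZMod q)⁻¹ := by
    intro i
    rw [← ZMod.natCast_eq_zero_iff]
    push_cast
    constructor
    · intro h
      have h1 : (i : ZMod q) * D = -1 := by linear_combination h
      rw [eq_comm, neg_eq_iff_eq_neg, inv_eq_of_mul_eq_one_right]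
      linear_combination - h1
    · intro h
      rw [h, neg_mul, inv_mul_cancel₀ hD0]; ring
  refine ⟨(- (D : ZMod q)⁻¹).val, ZMod.val_lt _, ?_, ?_⟩
  · rw [hiff, ZMod.natCast_zmod_val]
  · ext i
    simp only [mem_filter, mem_range, mem_erase]
    constructor
    · rintro ⟨h1, h2⟩
      refine ⟨?_, h1⟩
      rintro rfl
      apply h2
      rw [hiff, ZMod.natCast_zmod_val]
    · rintro ⟨h1, h2⟩
      refine ⟨h2, fun h3 => h1 ?_⟩
      rw [hiff] at h3
      rw [← h3, ZMod.val_natCast, Nat.mod_eq_of_lt h2]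

lemma card_HS {q D : ℕ} (h : q * D = M) (hq : q.Prime) :
    (HS (Hq M) q).card = if q ∣ D then q else q - 1 := by
  have h1 := sum_HS h hq (fun _ : ZMod M => (1 : ℕ))
  rw [← card_eq_sum_ones, ← card_eq_sum_ones] at h1
  rw [h1]
  split_ifs with hD
  · rw [filter_eq_range hq hD, card_range]
  · obtain ⟨i0, hi0, _, he⟩ := filter_eq_erase hq hD
    rw [he, card_erase_of_mem (mem_range.mpr hi0), card_range]

lemma le_card_HS {q : ℕ} (hq : q.Prime) (hM : q ∣ M) : q - 1 ≤ (HS (Hq M) q).card := by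
  rw [card_HS (Nat.mul_div_cancel' hM) hq]
  split_ifs <;> omega

/-- The cost of one orbit. -/
noncomputable def dl (M : ℕ) [NeZero M] (q : ℕ) : ℕ := if Even (HS (Hq M) q).card then 2 else 1

theorem orbit {q D : ℕ} (h : q * D = M) (hq : q.Prime) (h2 : q ≠ 2 ∨ q ∣ D) (κ : (ZMod M)ˣ) :
    ∃ ν : Multiset (ZMod M), Multiset.card ν ≤ dl M q ∧ (∀ b ∈ ν, (D : ZMod M) * b = 0) ∧
      ∀ (Q : Type) [AddCommGroup Q] (c : ZMod M → Q), OddDist c →
        ∑ u ∈ HS (Hq M) q, c ((u * κ : (ZMod M)ˣ) : ZMod M) = (ν.map c).sum := by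
  have hM0 : ((q * D : ℕ) : ZMod M) = 0 := by rw [h]; simp
  have hfull : ∀ (Q : Type) [AddCommGroup Q] (c : ZMod M → Q), OddDist c →
      ∑ i ∈ range q, c (((1 + i * D : ℕ) : ZMod M) * (κ : ZMod M)) =
        c ((q : ZMod M) * (κ : ZMod M)) := by
    intro Q _ c hc
    rw [← hc.dist q D hq h]
    have h3 := coset_sum_unit c h κ 1
    rw [mul_one] at h3
    rw [← h3]
    refine sum_congr rfl fun i _ => ?_
    congr 1
    push_cast; ring
  have hsum : ∀ (Q : Type) [AddCommGroup Q] (c : ZMod M → Q),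
      ∑ u ∈ HS (Hq M) q, c ((u * κ : (ZMod M)ˣ) : ZMod M) =
      ∑ i ∈ (range q).filter (fun i => ¬ q ∣ 1 + i * D),
        c (((1 + i * D : ℕ) : ZMod M) * (κ : ZMod M)) := by
    intro Q _ c
    rw [← sum_HS h hq (fun x => c (x * (κ : ZMod M)))]
    rfl
  by_cases hD : q ∣ D
  · refine ⟨{(q : ZMod M) * κ}, ?_, ?_, ?_⟩
    · unfold dl; rw [Multiset.card_singleton]; split_ifs <;> omega
    · intro b hb
      rw [Multiset.mem_singleton] at hb
      rw [hb]
      push_cast at hM0
      linear_combination (κ : ZMod M) * hM0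
    · intro Q _ c hc
      rw [hsum, filter_eq_range hq hD, hfull Q c hc, Multiset.map_singleton,
        Multiset.sum_singleton]
  · obtain ⟨i0, hi0, hd0, he⟩ := filter_eq_erase hq hD
    refine ⟨{(q : ZMod M) * κ, - (((1 + i0 * D : ℕ) : ZMod M) * (κ : ZMod M))}, ?_, ?_, ?_⟩
    · unfold dl
      rw [card_HS h hq, if_neg hD]
      have hodd : Odd q := hq.odd_of_ne_two (h2.resolve_right hD)
      have : Even (q - 1) := by
        obtain ⟨k, hk⟩ := hodd
        exact ⟨k, by omega⟩
      rw [if_pos this]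
      simp
    · intro b hb
      rw [Multiset.insert_eq_cons, Multiset.mem_cons, Multiset.mem_singleton] at hb
      rcases hb with hb | hb
      · rw [hb]
        push_cast at hM0
        linear_combination (κ : ZMod M) * hM0
      · rw [hb]
        obtain ⟨k, hk⟩ := hd0
        rw [hk]
        push_cast at hM0 ⊢
        linear_combination - (k : ZMod M) * (κ : ZMod M) * hM0
    · intro Q _ c hc
      have h5 := add_sum_erase (range q)
        (fun i => c (((1 + i * D : ℕ) : ZMod M) * (κ : ZMod M))) (mem_range.mpr hi0)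
      rw [hfull Q c hc] at h5
      rw [hsum, he, Multiset.insert_eq_cons, Multiset.map_cons, Multiset.sum_cons,
        Multiset.map_singleton, Multiset.sum_singleton, hc.neg, ← h5]
      abel

/-- Lowering. -/
theorem lowering {q D : ℕ} (h : q * D = M) (hq : q.Prime) (h2 : q ≠ 2 ∨ q ∣ D) :
    ∀ (N : ℕ) (w : (ZMod M)ˣ → ℕ), ∑ u, w u = N → (∀ k ∈ Hq M q, ∀ u, w (k * u) = w u) →
    ∃ ν : Multiset (ZMod M), Multiset.card ν * (HS (Hq M) q).card ≤ dl M q * N ∧
      (∀ b ∈ ν, (D : ZMod M) * b = 0) ∧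
      ∀ (Q : Type) [AddCommGroup Q] (c : ZMod M → Q), OddDist c →
        ∑ u, w u • c (u : ZMod M) = (ν.map c).sum := by
  intro N
  induction N using Nat.strong_induction_on with
  | _ N ih =>
  intro w hN hw
  by_cases hz : ∀ u, w u = 0
  · refine ⟨0, by simp, by simp, ?_⟩
    intro Q _ c _
    simp [hz]
  · push Not at hz
    obtain ⟨κ, hκ⟩ := hz
    set O : Finset (ZMod M)ˣ := univ.filter (fun u => u * κ⁻¹ ∈ Hq M q) with hO
    have hwO : ∀ u ∈ O, w u = w κ := by
      intro u hu
      have h3 := hw _ (mem_filter.mp hu).2 κ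
      rwa [mul_assoc, inv_mul_cancel, mul_one] at h3
    have hsumO : ∀ {Q : Type} [AddCommMonoid Q] (g : (ZMod M)ˣ → Q),
        ∑ u ∈ O, g u = ∑ k ∈ HS (Hq M) q, g (k * κ) := by
      intro Q _ g
      symm
      refine Finset.sum_bij (fun k _ => k * κ) ?_ ?_ ?_ ?_
      · intro k hk
        rw [hO, mem_filter]
        refine ⟨mem_univ _, ?_⟩
        rw [mul_assoc, mul_inv_cancel, mul_one]
        exact mem_HS.mp hk
      · intro a _ b _ hab
        exact mul_right_cancel hab
      · intro u hu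
        exact ⟨u * κ⁻¹, mem_HS.mpr (mem_filter.mp hu).2, by
          rw [mul_assoc, inv_mul_cancel, mul_one]⟩
      · intro k _
        rfl
    set w' : (ZMod M)ˣ → ℕ := fun u => w u - (if u ∈ O then 1 else 0) with hw'
    have hww : ∀ u, w u = w' u + (if u ∈ O then 1 else 0) := by
      intro u
      simp only [hw']
      split_ifs with hu
      · have := hwO u hu
        omega
      · omega
    have hinv : ∀ k ∈ Hq M q, ∀ u, w' (k * u) = w' u := by
      intro k hk u
      simp only [hw']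
      rw [hw k hk u]
      have : (k * u ∈ O) ↔ (u ∈ O) := by
        rw [hO, mem_filter, mem_filter, mul_assoc]
        simp only [mem_univ, true_and]
        exact Subgroup.mul_mem_cancel_left _ hk
      simp only [this]
    have hcard : O.card = (HS (Hq M) q).card := by
      have := hsumO (fun _ => (1 : ℕ))
      rwa [← card_eq_sum_ones, ← card_eq_sum_ones] at this
    have hpos : 0 < (HS (Hq M) q).card := card_HS_pos q
    have hN' : N = ∑ u, w' u + (HS (Hq M) q).card := by
      rw [← hN, sum_congr rfl fun u _ => hww u, sum_add_distrib]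
      congr 1
      rw [← hcard, card_eq_sum_ones, sum_ite_mem, univ_inter]
    obtain ⟨ν1, a1, a2, a3⟩ := ih (∑ u, w' u) (by omega) w' rfl hinv
    obtain ⟨ν2, b1, b2, b3⟩ := orbit h hq h2 κ
    refine ⟨ν1 + ν2, ?_, ?_, ?_⟩
    · rw [Multiset.card_add, hN']
      nlinarith
    · intro b hb
      rcases Multiset.mem_add.mp hb with hb | hb
      · exact a2 b hb
      · exact b2 b hb
    · intro Q _ c hc
      rw [Multiset.map_add, Multiset.sum_add, ← a3 Q c hc, ← b3 Q c hc,
        ← hsumO (fun u => c (u : ZMod M))]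
      have : ∀ u : (ZMod M)ˣ, w u • c (u : ZMod M) = w' u • c (u : ZMod M) +
          (if u ∈ O then c (u : ZMod M) else 0) := by
        intro u
        rw [hww u, add_smul]
        congr 1
        split_ifs <;> simp
      rw [sum_congr rfl fun u _ => this u, sum_add_distrib]
      congr 1
      rw [sum_ite_mem, univ_inter]

end Pool.Agent.H953R3.FH
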