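import Pool.Agent.H953R3.FH.Step

/-!
# The descent
-/

namespace Pool.Agent.H953R3.FH

open Finset Pool.Agent.H916R2
open scoped Classical

set_option linter.unusedSectionVars false

variable {m : ℕ} [NeZero m]

section two

variable {M d : ℕ} [NeZero M]

/-- The step for an order which is twice an odd number. -/
theorem step_two (hd : d * M = m) {D : ℕ} (hD2 : 2 * D = M) (hD : Odd D) (s : Multiset (ZMod m))
    (hord : ∀ a ∈ s, addOrderOf a ≤ M) :
    ∃ s' : Multiset (ZMod m), WS s' ≤ WS s ∧ (∀ a ∈ s', addOrderOf a < M) ∧ Eqv s s' := by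
  have hm2 : 2 * (d * D) = m := by rw [← hd, ← hD2]; ring
  set h : ZMod m := ((d * D : ℕ) : ZMod m) with hh
  have hDpos : 0 < D := by
    rcases Nat.eq_zero_or_pos D with h0 | h0
    · subst h0; exact absurd hD (by decide)
    · exact h0
  have hhh : h + h = 0 := by
    have : ((2 * (d * D) : ℕ) : ZMod m) = 0 := by rw [hm2]; simp
    rw [hh, ← two_mul]; push_cast at this ⊢; exact this
  have hDh : (D : ZMod m) * h = h := by
    obtain ⟨k, hk⟩ := hD
    have : (D : ZMod m) = 2 * (k : ZMod m) + 1 := by rw [hk]; push_cast; ring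
    rw [this]
    linear_combination (k : ZMod m) * hhh
  have hDa : ∀ a : ZMod m, addOrderOf a = M → (D : ZMod m) * a = h := by
    intro a ha
    obtain ⟨u, rfl⟩ := exists_unit_of_order hd ha
    rw [← iota_natMul hd]
    have h1 : (D : ZMod M) * (u : ZMod M) = (D : ZMod M) := by
      have h2 : Odd (u : ZMod M).val := by
        have h3 := ZMod.val_coe_unit_coprime u
        have h4 : Nat.Coprime (u : ZMod M).val 2 :=
          h3.coprime_dvd_right (Dvd.intro _ hD2)
        exact Nat.Coprime.odd_of_right h4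
      obtain ⟨k, hk⟩ := h2
      have h3 : ((2 * D : ℕ) : ZMod M) = 0 := by rw [hD2]; simp
      rw [← ZMod.natCast_zmod_val (u : ZMod M), hk]
      push_cast at h3 ⊢
      linear_combination (k : ZMod M) * h3
    rw [h1, iota_natCast hd]
  set sM := s.filter fun a => addOrderOf a = M with hsM
  refine ⟨s.filter (fun a => ¬ addOrderOf a = M) +
    (sM.map (fun a => 2 * a) + sM.map (fun a => -(a + h))), ?_, ?_, ?_⟩
  · rw [WS_add, WS_filter s M, add_comm]
    apply Nat.add_le_add_right
    have h1 : WS (sM.map (fun a => 2 * a) + sM.map (fun a => -(a + h))) ≤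
        1 * Multiset.card (sM.map (fun a => 2 * a) + sM.map (fun a => -(a + h))) := by
      apply WS_le
      intro b hb
      have h2 : addOrderOf b ∣ D := by
        rw [addOrderOf_dvd_iff_nsmul_eq_zero, nsmul_eq_mul]
        rcases Multiset.mem_add.mp hb with hb | hb
        · obtain ⟨a, ha, rfl⟩ := Multiset.mem_map.mp hb
          have h3 := hDa a (Multiset.mem_filter.mp ha).2
          linear_combination 2 * h3 + hhh
        · obtain ⟨a, ha, rfl⟩ := Multiset.mem_map.mp hb
          have h3 := hDa a (Multiset.mem_filter.mp ha).2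
          linear_combination - h3 - hDh - hhh
      refine (wt_mono h2).trans ?_
      unfold wt
      rw [if_neg (Nat.not_even_iff_odd.mpr hD)]
    have h2 : wt M = 2 := by
      unfold wt
      rw [if_pos (even_iff_two_dvd.mpr (Dvd.intro _ hD2))]
    rw [h2, ← hsM]
    rw [Multiset.card_add, Multiset.card_map, Multiset.card_map] at h1
    linarith
  · intro b hb
    rcases Multiset.mem_add.mp hb with hb | hb
    · obtain ⟨h1, h2⟩ := Multiset.mem_filter.mp hb
      exact lt_of_le_of_ne (hord b h1) h2
    · have h2 : addOrderOf b ∣ D := by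
        rw [addOrderOf_dvd_iff_nsmul_eq_zero, nsmul_eq_mul]
        rcases Multiset.mem_add.mp hb with hb | hb
        · obtain ⟨a, ha, rfl⟩ := Multiset.mem_map.mp hb
          have h3 := hDa a (Multiset.mem_filter.mp ha).2
          linear_combination 2 * h3 + hhh
        · obtain ⟨a, ha, rfl⟩ := Multiset.mem_map.mp hb
          have h3 := hDa a (Multiset.mem_filter.mp ha).2
          linear_combination - h3 - hDh - hhh
      have h4 := Nat.le_of_dvd hDpos h2
      omega
  · intro Q _ c hc
    have hpt : ∀ a : ZMod m, c (2 * a) + c (-(a + h)) = c a := by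
      intro a
      have h1 := hc.dist 2 (d * D) Nat.prime_two hm2 a
      rw [sum_range_succ, sum_range_succ, sum_range_zero] at h1
      have h2 : a + ((0 : ℕ) : ZMod m) * ((d * D : ℕ) : ZMod m) = a := by push_cast; ring
      have h3 : a + ((1 : ℕ) : ZMod m) * ((d * D : ℕ) : ZMod m) = a + h := by
        rw [hh]; push_cast; ring
      rw [h2, h3] at h1
      have h4 : ((2 : ℕ) : ZMod m) * a = 2 * a := by push_cast; rfl
      rw [h4] at h1
      rw [hc.neg, ← h1]
      abel
    have e3 : (s.map c).sum = (sM.map c).sum +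
        ((s.filter fun a => ¬ addOrderOf a = M).map c).sum := by
      rw [hsM, ← Multiset.sum_add, ← Multiset.map_add, Multiset.filter_add_not]
    rw [e3, Multiset.map_add, Multiset.sum_add, add_comm]
    congr 1
    rw [Multiset.map_add, Multiset.sum_add, Multiset.map_map, Multiset.map_map,
      ← Multiset.sum_map_add]
    congr 1
    apply Multiset.map_congr rfl
    intro a _
    exact hpt a

end two

/-- The data needed at the orders `M` which are odd or divisible by `4`. -/
def Good (m : ℕ) [NeZero m] (B : ℕ) : Prop :=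
  ∀ (d M : ℕ) [NeZero M] (_ : d * M = m), (Even M → 4 ∣ M) → ∀ s : Multiset (ZMod m), RelS s →
    (∀ a ∈ s, addOrderOf a ≤ M) → WS s ≤ B →
    ∃ T : List ℕ, (∀ q ∈ T, q.Prime ∧ q ∣ M) ∧ Concl (Hq M) (-1) T (sc (M := M) d s)

theorem descent {B : ℕ} (hg : Good m B) : ∀ (K : ℕ) (s : Multiset (ZMod m)), RelS s →
    WS s ≤ B → (∀ a ∈ s, addOrderOf a ≤ K) →
    ∀ (Q : Type) [AddCommGroup Q] (c : ZMod m → Q), OddDist c → (s.map c).sum = 0 := by
  intro K
  induction K with
  | zero =>
    intro s _ _ hord Q _ c _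
    have : s = 0 := by
      apply Multiset.eq_zero_of_forall_notMem
      intro a ha
      have h1 := hord a ha
      have h2 := addOrderOf_pos a
      omega
    rw [this]; simp
  | succ K ih =>
    intro s hs hB hord Q _ c hc
    by_cases hM : (K + 1) ∣ m
    · obtain ⟨d, hd⟩ := hM
      have hdM : d * (K + 1) = m := by rw [hd, mul_comm]
      have hne : NeZero (K + 1) := ⟨by omega⟩
      obtain ⟨s', h1, h2, h3⟩ : ∃ s' : Multiset (ZMod m), WS s' ≤ WS s ∧
          (∀ a ∈ s', addOrderOf a < K + 1) ∧ Eqv s s' := by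
        by_cases h24 : Even (K + 1) → 4 ∣ K + 1
        · obtain ⟨T, hT, hC⟩ := hg d (K + 1) hdM h24 s hs hord hB
          exact step_main hdM h24 s hord T hT hC
        · rw [Classical.not_imp] at h24
          obtain ⟨h4, h5⟩ := h24
          obtain ⟨D, hD⟩ := even_iff_two_dvd.mp h4
          refine step_two (D := D) hdM hD.symm ?_ s hord
          rw [← Nat.not_even_iff_odd]
          rintro ⟨k, hk⟩
          exact h5 ⟨k, by omega⟩
      rw [← h3 Q c hc]
      exact ih s' (h3.relS hs) (h1.trans hB) (fun a ha => Nat.lt_succ_iff.mp (h2 a ha)) Q c hc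
    · apply ih s hs hB _ Q c hc
      intro a ha
      have h1 := hord a ha
      have h2 : addOrderOf a ∣ m := by
        rw [addOrderOf_dvd_iff_nsmul_eq_zero]; simp
      have h3 : addOrderOf a ≠ K + 1 := fun h => hM (h ▸ h2)
      omega

lemma WS_le_two (s : Multiset (ZMod m)) : WS s ≤ 2 * Multiset.card s :=
  WS_le fun _ _ => wt_le _

lemma WS_le_of_odd (hm : Odd m) (s : Multiset (ZMod m)) : WS s ≤ Multiset.card s := by
  have : WS s ≤ 1 * Multiset.card s := by
    apply WS_le
    intro a _
    have h1 : addOrderOf a ∣ m := by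
      rw [addOrderOf_dvd_iff_nsmul_eq_zero]; simp
    refine (wt_mono h1).trans ?_
    unfold wt
    rw [if_neg (Nat.not_even_iff_odd.mpr hm)]
  linarith

/-- Hodge characters are generated by the pairs and the standard characters. -/
theorem generated_of_good {B : ℕ} (hg : Good m B) {s : Multiset (ZMod m)} (hs : IsHodge m s)
    (hB : WS s ≤ B) (hne : s ≠ 0) : Generated m (fun _ => False) s := by
  have h1 := descent hg m s hs.saw_sum hB (fun a _ => by
    have h1 : addOrderOf a ∣ m := by
      rw [addOrderOf_dvd_iff_nsmul_eq_zero]; simp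
    exact Nat.le_of_dvd (NeZero.pos m) h1) _ (cQ m (fun _ => False)) cQ_oddDist
  rw [cQ_sum, QuotientAddGroup.eq_zero_iff] at h1
  exact generated_of_mem_LL (fun _ h => h.elim) (fun _ h => h.elim) hs.1 hs.2.1 hne h1

/-- number of elements of order `M` -/
lemma card_order_le {M B : ℕ} {s : Multiset (ZMod m)} (hB : WS s ≤ B) :
    wt M * Multiset.card (s.filter fun a => addOrderOf a = M) ≤ B := by
  have := WS_filter s M
  omega

/-- The main estimate. -/
theorem good_of_primes {B : ℕ}
    (h1 : ∀ p q : ℕ, p.Prime → q.Prime → p ≠ q → p ≠ 2 → q ≠ 2 → p ∣ m → q ∣ m →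
      4 * B < (p - 1) * (q - 1))
    (h2 : 4 ∣ m → ∀ q : ℕ, q.Prime → q ≠ 2 → q ∣ m → B < q - 1) : Good m B := by
  intro d M _ hd h24 s hs hord hB
  have hMm : M ∣ m := Dvd.intro_left d hd
  refine ⟨M.primeFactors.toList, ?_, ?_⟩
  · intro q hq
    rw [Finset.mem_toList, Nat.mem_primeFactors] at hq
    exact ⟨hq.1, hq.2.1⟩
  · have hmem : ∀ {q : ℕ}, q ∈ M.primeFactors.toList → q.Prime ∧ q ∣ M := by
      intro q hq
      rw [Finset.mem_toList, Nat.mem_primeFactors] at hq
      exact ⟨hq.1, hq.2.1⟩
    have hcard := card_order_le (M := M) hB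
    set k := Multiset.card (s.filter fun a => addOrderOf a = M) with hk
    have hmain : ∀ q r : ℕ, q.Prime → r.Prime → q ∣ M → r ∣ M → q ≠ r → q = 2 →
        4 * k < (HS (Hq M) q).card * (HS (Hq M) r).card := by
      intro q r hq hr hqM hrM hne hq2
      subst hq2
      have h4M := h24 (even_iff_two_dvd.mpr hqM)
      have hev : wt M = 2 := by unfold wt; rw [if_pos (even_iff_two_dvd.mpr hqM)]
      rw [hev] at hcard
      have h3 := h2 (h4M.trans hMm) r hr (Ne.symm hne) (hrM.trans hMm)
      have h4 := le_card_HS hr hrM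
      have h5 : (HS (Hq M) 2).card = 2 := by
        rw [card_HS (Nat.mul_div_cancel' hqM) hq, if_pos]
        obtain ⟨l, hl⟩ := h4M
        exact ⟨l, by omega⟩
      rw [h5]
      omega
    refine decomp (W := Wq M) (B := 2 * (k : ℤ)) (Finset.nodup_toList _) ?_ ?_ (sc_neg s) ?_
      (nrm_sc hd s) (van_sc hd hs hord _ ?_)
    · intro q hq
      exact Hq_disjoint_Wq (hmem hq).1
    · intro q hq r hr hne
      exact Hq_le_Wq (hmem hq).1 (hmem hr).1 (hmem hr).2 hne
    · intro q hq r hr hne
      obtain ⟨hqp, hqM⟩ := hmem hq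
      obtain ⟨hrp, hrM⟩ := hmem hr
      have key : 4 * k < (HS (Hq M) q).card * (HS (Hq M) r).card := by
        by_cases hq2 : q = 2
        · exact hmain q r hqp hrp hqM hrM hne hq2
        · by_cases hr2 : r = 2
          · rw [mul_comm]
            rw [mul_comm (HS (Hq M) q).card]
            have := hmain r q hrp hqp hrM hqM (Ne.symm hne) hr2
            linarith
          · have h3 := h1 q r hqp hrp hne hq2 hr2 (hqM.trans hMm) (hrM.trans hMm)
            have h4 := Nat.mul_le_mul (le_card_HS hqp hqM) (le_card_HS hrp hrM)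
            have h5 : k ≤ B := by
              have := wt_pos M
              nlinarith
            omega
      have key2 : ((4 * k : ℕ) : ℤ) < (((HS (Hq M) q).card * (HS (Hq M) r).card : ℕ) : ℤ) := by
        exact_mod_cast key
      push_cast at key2
      linarith
    · intro q hq hqM
      rw [Finset.mem_toList, Nat.mem_primeFactors]
      exact ⟨hq, hqM, NeZero.ne M⟩

/-- odd degrees -/
theorem generated_odd {m n : ℕ} [NeZero m] (hm : Odd m)
    (h1 : ∀ p q : ℕ, p.Prime → q.Prime → p ≠ q → p ∣ m → q ∣ m → 4 * (n + 2) < (p - 1) * (q - 1))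
    {s : Multiset (ZMod m)} (hs : IsHodge m s) (hc : Multiset.card s = n + 2) :
    Generated m (fun _ => False) s := by
  have hg : Good m (n + 2) := by
    apply good_of_primes
    · intro p q hp hq hne _ _ hpm hqm
      exact h1 p q hp hq hne hpm hqm
    · intro h4
      exfalso
      rw [← Nat.not_even_iff_odd] at hm
      exact hm (even_iff_two_dvd.mpr ((by norm_num : 2 ∣ 4).trans h4))
  refine generated_of_good hg hs ?_ ?_
  · rw [← hc]; exact WS_le_of_odd hm s
  · rintro rfl; simp at hc

/-- even degrees -/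
theorem generated_even {m n : ℕ} [NeZero m]
    (h1 : ∀ p q : ℕ, p.Prime → q.Prime → p ≠ q → p ≠ 2 → q ≠ 2 → p ∣ m → q ∣ m →
      8 * (n + 2) < (p - 1) * (q - 1))
    (h2 : 4 ∣ m → ∀ q : ℕ, q.Prime → q ≠ 2 → q ∣ m → 2 * (n + 2) < q - 1)
    {s : Multiset (ZMod m)} (hs : IsHodge m s) (hc : Multiset.card s = n + 2) :
    Generated m (fun _ => False) s := by
  have hg : Good m (2 * (n + 2)) := by
    apply good_of_primes
    · intro p q hp hq hne hp2 hq2 hpm hqm
      have := h1 p q hp hq hne hp2 hq2 hpm hqm
      omega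
    · exact h2
  refine generated_of_good hg hs ?_ ?_
  · rw [← hc]; exact WS_le_two s
  · rintro rfl; simp at hc

end Pool.Agent.H953R3.FH
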