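import Pool.Agent.H953R3.FH.Redu
import Pool.Agent.H916R2.Families

/-!
# The reduction theorem
-/

namespace Pool.Agent.H953R3.FH

open Finset Pool.Agent.H916R2
open scoped Classical

set_option linter.unusedSectionVars false

variable {m : ℕ} [NeZero m]

lemma Eqv.refl (s : Multiset (ZMod m)) : Eqv s s := fun _ _ _ _ => rfl

lemma Eqv.trans {s s' s'' : Multiset (ZMod m)} (h : Eqv s s') (h' : Eqv s' s'') : Eqv s s'' :=
  fun Q _ c hc => (h' Q c hc).trans (h Q c hc)

theorem descent_lab {a b : ℕ} (hab : a * b = m) (hcop : Nat.Coprime (2 * a) b)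
    {s0 : Multiset (ZMod m)}
    (hbig : ∀ q : ℕ, q.Prime → q ∣ b → ∀ D, 2 * (Rl a s0 D).card < q - 1) :
    ∀ (K : ℕ) (s : Multiset (ZMod m)), RelS s → Lab a s0 s →
    (∀ x ∈ s, addOrderOf x ≤ K ∨ addOrderOf x ∣ a) →
    ∃ s' : Multiset (ZMod m), RelS s' ∧ (∀ x ∈ s', addOrderOf x ∣ a) ∧ Eqv s s' := by
  have ha : a ≠ 0 := by rintro rfl; rw [zero_mul] at hab; exact NeZero.ne m hab.symm
  intro K
  induction K with
  | zero =>
    intro s hs _ hord
    refine ⟨s, hs, fun x hx => ?_, Eqv.refl s⟩
    rcases hord x hx with h | h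
    · have := addOrderOf_pos x
      omega
    · exact h
  | succ K ih =>
    intro s hs hlab hord
    by_cases hM : (K + 1) ∣ m ∧ ¬ (K + 1) ∣ a
    · obtain ⟨⟨d, hd⟩, hMa⟩ := hM
      have hdM : d * (K + 1) = m := by rw [hd, mul_comm]
      have hne : NeZero (K + 1) := ⟨by omega⟩
      have hM2 : ¬ (K + 1) ∣ 2 * a := by
        intro h
        apply hMa
        have h1 : Nat.Coprime (K + 1) b := hcop.coprime_dvd_left h
        have h2 : (K + 1) ∣ a * b := by rw [hab, hd]; exact Dvd.intro _ rfl
        exact h1.dvd_of_dvd_mul_right h2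
      obtain ⟨s', h1, h2, h3⟩ := step_lab hdM ha hs hlab
        (by
          intro x hx hne' hdvd
          rcases hord x hx with h | h
          · have := Nat.le_of_dvd (addOrderOf_pos x) hdvd
            omega
          · exact hMa (hdvd.trans h))
        (by
          intro q hq hqM hqa
          apply hbig q hq
          have h4 : q ∣ a * b := by
            rw [hab, hd]; exact hqM.trans (Dvd.intro _ rfl)
          exact ((Nat.Prime.dvd_mul hq).mp h4).resolve_left hqa)
        hM2
      obtain ⟨s'', g1, g2, g3⟩ := ih s' (h3.relS hs) h2 (by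
        intro x hx
        rcases h1 x hx with ⟨h4, h5⟩ | h4
        · rcases hord x h4 with h | h
          · left; omega
          · exact Or.inr h
        · left; omega)
      exact ⟨s'', g1, g2, h3.trans g3⟩
    · apply ih s hs hlab
      intro x hx
      rcases hord x hx with h | h
      · by_cases h1 : addOrderOf x = K + 1
        · right
          have h2 : addOrderOf x ∣ m := by
            rw [addOrderOf_dvd_iff_nsmul_eq_zero]; simp
          rw [h1] at h2 ⊢
          by_contra h3
          exact hM ⟨h2, h3⟩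
        · left; omega
      · exact Or.inr h

section level

variable {M d : ℕ} [NeZero M]

lemma exists_iota (hd : d * M = m) {x : ZMod m} (hx : addOrderOf x ∣ M) :
    ∃ y : ZMod M, x = iota d y := by
  have h1 : ((M : ℕ) : ZMod m) * x = 0 := by
    rw [← nsmul_eq_mul]
    exact addOrderOf_dvd_iff_nsmul_eq_zero.mp hx
  have h2 : ((M * x.val : ℕ) : ZMod m) = 0 := by
    push_cast; rw [ZMod.natCast_zmod_val]; exact h1
  rw [ZMod.natCast_eq_zero_iff] at h2
  have h2' : M * d ∣ M * x.val := by
    have hm' : M * d = m := by rw [mul_comm]; exact hd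
    rw [hm']; exact h2
  obtain ⟨b, hb⟩ := (Nat.mul_dvd_mul_iff_left (NeZero.pos M)).mp h2'
  exact ⟨(b : ZMod M), by rw [iota_natCast hd, ← hb, ZMod.natCast_zmod_val]⟩

lemma sum_level (hd : d * M = m) {R : Type*} [AddCommGroup R] (s : Multiset (ZMod m))
    (hs : ∀ x ∈ s, addOrderOf x ∣ M) (g : ZMod m → R) :
    ∑ y : ZMod M, ((s.count (iota d y) : ℕ) : ℤ) • g (iota d y) = (s.map g).sum := by
  induction s using Multiset.induction_on with
  | empty => simp
  | cons a s ih =>
    obtain ⟨v, hv⟩ := exists_iota hd (hs a (Multiset.mem_cons_self _ _))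
    rw [Multiset.map_cons, Multiset.sum_cons, ← ih fun x hx => hs x (Multiset.mem_cons_of_mem hx)]
    have h1 : ∀ y : ZMod M, (((a ::ₘ s).count (iota d y) : ℕ) : ℤ) • g (iota d y) =
        (if y = v then g a else 0) + ((s.count (iota d y) : ℕ) : ℤ) • g (iota d y) := by
      intro y
      rw [Multiset.count_cons]
      by_cases hyv : y = v
      · subst hyv
        rw [if_pos rfl, if_pos hv.symm, Nat.cast_add, add_smul, Nat.cast_one, one_smul, add_comm,
          hv]
      · have h2 : ¬ (iota d y : ZMod m) = a := by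
          intro h3
          apply hyv
          rw [hv] at h3
          exact iota_injective hd h3
        rw [if_neg hyv, if_neg h2, add_zero, zero_add]
    rw [sum_congr rfl fun y _ => h1 y, sum_add_distrib, sum_ite_eq', if_pos (mem_univ v)]

/-- A relation supported on a level comes from a Hodge character of that level. -/
lemma exists_hodge_level (hd : d * M = m) {s : Multiset (ZMod m)} (hs : RelS s)
    (hord : ∀ x ∈ s, addOrderOf x ∣ M) :
    ∃ s1 : Multiset (ZMod M), IsHodge M s1 ∧ ∀ (Q : Type) [AddCommGroup Q] (c : ZMod m → Q),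
      OddDist c → (s.map c).sum = (s1.map fun y => c (iota d y)).sum := by
  have hd0 : (d : ℤ) ≠ 0 := by
    have : d ≠ 0 := by rintro rfl; rw [zero_mul] at hd; exact NeZero.ne m hd.symm
    exact_mod_cast this
  have hrel : Rel (fun y : ZMod M => ((s.count (iota d y : ZMod m) : ℕ) : ℤ)) := by
    intro t0
    obtain ⟨t, ht⟩ := ZMod.unitsMap_surjective (Dvd.intro_left d hd : M ∣ m) t0
    have h1 := sum_level hd s hord (fun x => saw ((t : ZMod m) * x))
    rw [hs t] at h1
    have h2 : (d : ℤ) * ∑ y : ZMod M, ((s.count (iota d y : ZMod m) : ℕ) : ℤ) *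
        saw ((t0 : ZMod M) * y) = 0 := by
      rw [← h1, mul_sum]
      refine sum_congr rfl fun y _ => ?_
      rw [unit_iota hd, ht, saw_iota hd, smul_eq_mul]
      ring
    exact (mul_eq_zero.mp h2).resolve_left hd0
  obtain ⟨s1, h1, h2⟩ := exists_hodge _ hrel
  refine ⟨s1, h1, ?_⟩
  intro Q _ c hc
  rw [← h2 Q _ (hc.comp_iota hd), sum_level hd s hord]

end level

/-- An odd distribution which kills the base kills everything which is generated. -/
lemma sum_generated {base : Multiset (ZMod m) → Prop} {Q : Type} [AddCommGroup Q]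
    {c : ZMod m → Q} (hc : OddDist c) (hbase : ∀ s, base s → (s.map c).sum = 0)
    {s : Multiset (ZMod m)} (h : Generated m base s) : (s.map c).sum = 0 := by
  induction h with
  | ofBase s hs => exact hbase s hs
  | pair a _ =>
    rw [Multiset.insert_eq_cons, Multiset.map_cons, Multiset.sum_cons, Multiset.map_singleton,
      Multiset.sum_singleton, hc.neg, add_neg_cancel]
  | standard p hp _ hpm a _ =>
    rw [Multiset.map_cons, Multiset.sum_cons, Multiset.map_map, hc.neg,
      ← hc.dist p (m / p) hp (Nat.mul_div_cancel' hpm) a]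
    have : ((Multiset.range p).map (c ∘ fun i : ℕ => a + (i : ZMod m) * ((m / p : ℕ) : ZMod m))).sum =
        ∑ i ∈ range p, c (a + (i : ZMod m) * ((m / p : ℕ) : ZMod m)) := rfl
    rw [this, neg_add_cancel]
  | standardTwo hm a _ =>
    have h1 := hc.dist 2 (m / 2) Nat.prime_two (Nat.mul_div_cancel' hm) a
    rw [sum_range_succ, sum_range_succ, sum_range_zero] at h1
    have h2 : a + ((0 : ℕ) : ZMod m) * ((m / 2 : ℕ) : ZMod m) = a := by push_cast; ring
    have h3 : a + ((1 : ℕ) : ZMod m) * ((m / 2 : ℕ) : ZMod m) = a + ((m / 2 : ℕ) : ZMod m) := by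
      rw [Nat.cast_one, one_mul]
    rw [h2, h3] at h1
    have h4 : ((2 : ℕ) : ZMod m) * a = 2 * a := by push_cast; rfl
    rw [h4] at h1
    have h5 : c ((m / 2 : ℕ) : ZMod m) = 0 := by
      apply hc.half
      have h6 : ((2 * (m / 2) : ℕ) : ZMod m) = 0 := by rw [Nat.mul_div_cancel' hm]; simp
      rw [← two_mul]; push_cast at h6 ⊢; exact h6
    rw [Multiset.insert_eq_cons, Multiset.insert_eq_cons, Multiset.insert_eq_cons,
      Multiset.map_cons, Multiset.sum_cons, Multiset.map_cons, Multiset.sum_cons,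
      Multiset.map_cons, Multiset.sum_cons, Multiset.map_singleton, Multiset.sum_singleton, h5,
      hc.neg, ← h1]
    abel
  | join s t _ _ ihs iht => rw [Multiset.map_add, Multiset.sum_add, ihs, iht, add_zero]
  | cancel a s _ ih =>
    rw [Multiset.map_cons, Multiset.sum_cons, Multiset.map_cons, Multiset.sum_cons, hc.neg] at ih
    rw [← ih]; abel

/-- The value of an odd distribution at a Hodge character comes from the level `a`. -/
theorem exists_level {a b n : ℕ} [NeZero a] (hab : a * b = m) (hcop : Nat.Coprime a b)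
    (hq : ∀ q : ℕ, q.Prime → q ∣ b → 2 ^ (a.primeFactors.card + 1) * (n + 2) < q - 1)
    {s : Multiset (ZMod m)} (hs : IsHodge m s) (hc : Multiset.card s = n + 2) :
    ∃ s1 : Multiset (ZMod a), IsHodge a s1 ∧ ∀ (Q : Type) [AddCommGroup Q] (c : ZMod m → Q),
      OddDist c → (s.map c).sum = (s1.map fun y => c (iota b y)).sum := by
  have hb2 : Nat.Coprime 2 b := by
    rw [Nat.prime_two.coprime_iff_not_dvd]
    intro h
    have := hq 2 Nat.prime_two h
    have h2 : 0 < 2 ^ (a.primeFactors.card + 1) * (n + 2) := by positivity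
    omega
  have hcop2 : Nat.Coprime (2 * a) b := Nat.Coprime.mul_left hb2 hcop
  have hba : b * a = m := by rw [mul_comm]; exact hab
  obtain ⟨s', h1, h2, h3⟩ := descent_lab hab hcop2 (s0 := s) (by
    intro q hqp hqb D
    refine lt_of_le_of_lt ?_ (hq q hqp hqb)
    have := Rl_card a s D
    rw [hc] at this
    rw [pow_succ]
    linarith) m s hs.saw_sum (Lab.init a s) (fun x _ => by
      left
      have h1 : addOrderOf x ∣ m := by
        rw [addOrderOf_dvd_iff_nsmul_eq_zero]; simp
      exact Nat.le_of_dvd (NeZero.pos m) h1)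
  obtain ⟨s1, g1, g2⟩ := exists_hodge_level hba h1 h2
  refine ⟨s1, g1, ?_⟩
  intro Q _ c hcc
  rw [← h3 Q c hcc, g2 Q c hcc]

/-- The reduction to degree `a`. -/
theorem generated_level {a b n : ℕ} [NeZero a] (hab : a * b = m) (hcop : Nat.Coprime a b)
    (hq : ∀ q : ℕ, q.Prime → q ∣ b → 2 ^ (a.primeFactors.card + 1) * (n + 2) < q - 1)
    {s : Multiset (ZMod m)} (hs : IsHodge m s) (hc : Multiset.card s = n + 2) :
    Generated m (FromLevel m a) s := by
  have hba : b * a = m := by rw [mul_comm]; exact hab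
  have hdiv : m / a = b := by rw [← hab]; exact Nat.mul_div_cancel_left b (NeZero.pos a)
  obtain ⟨s1, g1, g2⟩ := exists_level hab hcop hq hs hc
  have hfrom : ∀ t : Multiset (ZMod a), IsHodge a t →
      FromLevel m a (t.map (iota b : ZMod a → ZMod m)) := by
    intro t ht
    refine ⟨t, ht, ?_⟩
    rw [hdiv]; rfl
  have hbase : ∀ t, FromLevel m a t → ∃ t0 : Multiset (ZMod a), IsHodge a t0 ∧
      t = t0.map (iota b : ZMod a → ZMod m) := by
    rintro t ⟨t0, h0, rfl⟩
    refine ⟨t0, h0, ?_⟩
    rw [hdiv]; rfl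
  have hb : ∀ s, FromLevel m a s → (0 : ZMod m) ∉ s ∧ Even (Multiset.card s) := by
    intro t ht
    obtain ⟨t0, h0, rfl⟩ := hbase t ht
    have := h0.iota hba
    exact ⟨this.1, this.2.1⟩
  have hbn : ∀ s, FromLevel m a s → FromLevel m a (s.map Neg.neg) := by
    intro t ht
    obtain ⟨t0, h0, rfl⟩ := hbase t ht
    have h1 : (t0.map (iota b : ZMod a → ZMod m)).map Neg.neg =
        (t0.map Neg.neg).map (iota b : ZMod a → ZMod m) := by
      rw [Multiset.map_map, Multiset.map_map]
      apply Multiset.map_congr rfl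
      intro x _
      simp only [Function.comp_apply]
      rw [iota_neg hba]
    rw [h1]
    exact hfrom _ h0.neg
  have h1 := g2 _ (cQ m (FromLevel m a)) cQ_oddDist
  have h2 := cQ_sum_eq_zero (Generated.ofBase (m := m) (base := FromLevel m a) _ (hfrom s1 g1))
  rw [Multiset.map_map] at h2
  have h3 : (s.map (cQ m (FromLevel m a))).sum = 0 := by
    rw [h1]; exact h2
  rw [cQ_sum, QuotientAddGroup.eq_zero_iff] at h3
  refine generated_of_mem_LL hb hbn hs.1 hs.2.1 ?_ h3
  rintro rfl; simp at hc

/-- The unconditional case. -/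
theorem generated_good {a b n : ℕ} [NeZero a] (hab : a * b = m) (hcop : Nat.Coprime a b)
    (hq : ∀ q : ℕ, q.Prime → q ∣ b → 2 ^ (a.primeFactors.card + 1) * (n + 2) < q - 1)
    (hgood : GoodDegree a) {s : Multiset (ZMod m)} (hs : IsHodge m s)
    (hc : Multiset.card s = n + 2) : Generated m (SurfaceCharacter m) s := by
  have hba : b * a = m := by rw [mul_comm]; exact hab
  obtain ⟨s1, g1, g2⟩ := exists_level hab hcop hq hs hc
  have hb : ∀ s, SurfaceCharacter m s → (0 : ZMod m) ∉ s ∧ Even (Multiset.card s) :=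
    fun s h => ⟨h.1.1, h.1.2.1⟩
  have hbn : ∀ s, SurfaceCharacter m s → SurfaceCharacter m (s.map Neg.neg) := by
    rintro s ⟨h1, h2⟩
    exact ⟨h1.neg, by rw [Multiset.card_map]; exact h2⟩
  have h1 := g2 _ (cQ m (SurfaceCharacter m)) cQ_oddDist
  have h3 : (s.map (cQ m (SurfaceCharacter m))).sum = 0 := by
    rw [h1]
    by_cases hs1 : s1 = 0
    · rw [hs1]; simp
    · have h4 := Families.main a (NeZero.pos a) hgood s1 g1 hs1
      refine sum_generated (cQ_oddDist.comp_iota hba) ?_ h4
      intro t ht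
      have h5 := cQ_sum_eq_zero (Generated.ofBase (m := m) (base := SurfaceCharacter m)
        (t.map (iota b : ZMod a → ZMod m))
        ⟨ht.1.iota hba, by rw [Multiset.card_map]; exact ht.2⟩)
      rw [Multiset.map_map] at h5
      exact h5
  rw [cQ_sum, QuotientAddGroup.eq_zero_iff] at h3
  refine generated_of_mem_LL hb hbn hs.1 hs.2.1 ?_ h3
  rintro rfl; simp at hc

end Pool.Agent.H953R3.FH
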