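import Pool.Agent.H953R3.FH.Lab

/-!
# Removing the large primes
-/

namespace Pool.Agent.H953R3.FH

open Finset Pool.Agent.H916R2
open scoped Classical

set_option linter.unusedSectionVars false

variable {m : ℕ} [NeZero m] {M d : ℕ} [NeZero M]

/-- Claim A in the presence of elements of other orders -/
theorem van_sc' (hd : d * M = m) {s : Multiset (ZMod m)} (hs : RelS s)
    (hord : ∀ a ∈ s, addOrderOf a ≠ M → ¬ M ∣ addOrderOf a) (T : List ℕ)
    (hT : ∀ q, q.Prime → q ∣ M → q ∈ T) : Van (Hq M) T (sc (M := M) d s) := by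
  apply van_of_hat
  intro χ hχT
  have hNT : NT χ := fun q hq hqM => hχT q (hT q hq hqM)
  exact hat_sc hd hs (fun a ha hne => SS_vanish hd hNT (hord a ha hne)) (SS_one_ne_zero hNT)

lemma sc_ne_zero {s : Multiset (ZMod m)} {u : (ZMod M)ˣ} (h : sc (M := M) d s u ≠ 0) :
    (iota d (u : ZMod M) : ZMod m) ∈ s ∨ (iota d ((-u : (ZMod M)ˣ) : ZMod M) : ZMod m) ∈ s := by
  by_contra hcon
  push Not at hcon
  apply h
  unfold sc
  rw [Multiset.count_eq_zero.mpr hcon.1, Multiset.count_eq_zero.mpr hcon.2]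
  simp

lemma iota_neg_unit (hd : d * M = m) (u : (ZMod M)ˣ) :
    (iota d ((-u : (ZMod M)ˣ) : ZMod M) : ZMod m) = - iota d (u : ZMod M) := by
  rw [Units.val_neg, iota_neg hd]

/-- labels of the support -/
lemma PR_of_sc (hd : d * M = m) {a : ℕ} {s0 s : Multiset (ZMod m)} (hlab : Lab a s0 s)
    (hMa : ¬ M ∣ a) {u : (ZMod M)ˣ} (h : sc (M := M) d s u ≠ 0) :
    PR a s0 M ((a : ZMod m) * iota d (u : ZMod M)) := by
  rcases sc_ne_zero h with h1 | h1
  · have h2 := hlab _ h1 (by rw [order_iota_unit hd]; exact hMa)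
    rwa [order_iota_unit hd] at h2
  · have h2 := hlab _ h1 (by rw [order_iota_unit hd]; exact hMa)
    rw [order_iota_unit hd, iota_neg_unit hd, mul_neg] at h2
    have := h2.neg
    rwa [neg_neg] at this

/-- Large primes have a vanishing slice. -/
theorem zero_slice (hd : d * M = m) {a : ℕ} {s0 s : Multiset (ZMod m)}
    (hlab : Lab a s0 s) {q : ℕ} (hq : q.Prime) (hqM : q ∣ M) (hqa : ¬ q ∣ a)
    (hcard : 2 * (Rl a s0 M).card < q - 1) (u0 : (ZMod M)ˣ) :
    ∃ h0 ∈ Hq M q, ∀ u, u * u0⁻¹ ∈ Wq M q → sc (M := M) d s (h0 * u) = 0 := by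
  by_contra hcon
  push Not at hcon
  choose! v hv1 hv2 using hcon
  have hMa : ¬ M ∣ a := fun h => hqa (hqM.trans h)
  -- the labels
  have hinj : Set.InjOn (fun h : (ZMod M)ˣ => (a : ZMod m) * iota d ((h * v h : (ZMod M)ˣ) : ZMod M))
      (HS (Hq M) q : Set (ZMod M)ˣ) := by
    intro h hh h' hh' he
    have hh1 := mem_HS.mp hh
    have hh1' := mem_HS.mp hh'
    simp only at he
    rw [← iota_natMul hd, ← iota_natMul hd] at he
    have he2 := iota_injective hd he
    -- a (h v) = a (h' v')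
    have h3 : (h * v h) * (h' * v h')⁻¹ ∈ Hq M a := by
      rw [mem_Hq]
      have h4 : (((h * v h) * (h' * v h')⁻¹ : (ZMod M)ˣ) : ZMod M) * (a : ZMod M) =
          ((a : ZMod M) * ((h * v h : (ZMod M)ˣ) : ZMod M)) *
            (((h' * v h')⁻¹ : (ZMod M)ˣ) : ZMod M) := by
        rw [Units.val_mul (h * v h)]; ring
      rw [h4, he2, mul_assoc, Units.mul_inv, mul_one]
    -- the stabiliser of a is contained in W q
    have h5 : Hq M a ≤ Wq M q := by
      intro y hy
      rw [mem_Hq] at hy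
      unfold Wq
      rw [mem_Hq]
      set w := M / q ^ M.factorization q with hw
      have hgw : Nat.gcd a M ∣ w := by
        have h6 : Nat.gcd a M ∣ q ^ M.factorization q * w := by
          rw [hw, Nat.mul_div_cancel' (Nat.ordProj_dvd M q)]
          exact Nat.gcd_dvd_right a M
        refine Nat.Coprime.dvd_of_dvd_mul_left ?_ h6
        apply Nat.Coprime.pow_right
        rw [Nat.coprime_comm, hq.coprime_iff_not_dvd]
        exact fun h => hqa (h.trans (Nat.gcd_dvd_left a M))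
      obtain ⟨l, hl⟩ := hgw
      have h7 : ((w : ℕ) : ZMod M) = (a : ZMod M) * ((Nat.gcdA a M : ℤ) : ZMod M) * (l : ZMod M) := by
        have h8 := Nat.gcd_eq_gcd_ab a M
        have h9 := congrArg (Int.cast : ℤ → ZMod M) h8
        push_cast at h9
        rw [hl]
        push_cast
        rw [h9]
        simp
      rw [h7]
      linear_combination ((Nat.gcdA a M : ℤ) : ZMod M) * (l : ZMod M) * hy
    have h10 := h5 h3
    -- remove the v
    have h11 : (v h) * u0⁻¹ ∈ Wq M q := hv1 h hh1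
    have h12 : (v h') * u0⁻¹ ∈ Wq M q := hv1 h' hh1'
    have h13 : h * h'⁻¹ ∈ Wq M q := by
      have h14 : h * h'⁻¹ = ((h * v h) * (h' * v h')⁻¹) * (((v h) * u0⁻¹)⁻¹ * ((v h') * u0⁻¹)) := by
        rw [mul_inv (h' : (ZMod M)ˣ), mul_inv (v h), inv_inv]
        have h17 : h * v h * (h'⁻¹ * (v h')⁻¹) * ((v h)⁻¹ * u0 * (v h' * u0⁻¹)) =
            (h * h'⁻¹) * ((v h * (v h)⁻¹) * ((v h')⁻¹ * v h') * (u0 * u0⁻¹)) := by ac_rfl
        rw [h17]
        simp
      rw [h14]
      exact (Wq M q).mul_mem h10 ((Wq M q).mul_mem ((Wq M q).inv_mem h11) h12)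
    have h15 : h * h'⁻¹ ∈ Hq M q := (Hq M q).mul_mem hh1 ((Hq M q).inv_mem hh1')
    have h16 := (Subgroup.disjoint_def.mp (Hq_disjoint_Wq hq)) h15 h13
    exact mul_inv_eq_one.mp h16
  have hsub : (HS (Hq M) q).image
      (fun h : (ZMod M)ˣ => (a : ZMod m) * iota d ((h * v h : (ZMod M)ˣ) : ZMod M)) ⊆
      Rl a s0 M ∪ (Rl a s0 M).image Neg.neg := by
    intro y hy
    obtain ⟨h, hh, rfl⟩ := mem_image.mp hy
    have h1 := PR_of_sc hd hlab hMa (hv2 h (mem_HS.mp hh))
    rcases h1 with h1 | h1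
    · exact mem_union_left _ h1
    · apply mem_union_right
      rw [mem_image]
      exact ⟨_, h1, neg_neg _⟩
  have h1 := card_le_card hsub
  rw [card_image_of_injOn hinj] at h1
  have h2 := (card_union_le (Rl a s0 M) ((Rl a s0 M).image Neg.neg))
  have h3 : ((Rl a s0 M).image Neg.neg).card ≤ (Rl a s0 M).card := card_image_le
  have h4 := le_card_HS hq hqM
  omega

/-- Dropping the large primes. -/
theorem van_small (hd : d * M = m) {a : ℕ} {s0 s : Multiset (ZMod m)}
    (hlab : Lab a s0 s) (T1 : List ℕ) : ∀ (T : List ℕ), (T ++ T1).Nodup →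
    (∀ q ∈ T ++ T1, q.Prime ∧ q ∣ M) →
    (∀ q ∈ T, ¬ q ∣ a ∧ 2 * (Rl a s0 M).card < q - 1) →
    Van (Hq M) (T ++ T1) (sc (M := M) d s) → Van (Hq M) T1 (sc (M := M) d s)
  | [], _, _, _, hV => hV
  | q :: T, hnd, hT, hq, hV => by
    rw [List.cons_append] at *
    have hqT : q ∉ T ++ T1 := (List.nodup_cons.mp hnd).1
    obtain ⟨hqp, hqM⟩ := hT q (List.mem_cons_self ..)
    obtain ⟨h1, h2⟩ := hq q (List.mem_cons_self ..)
    apply van_small hd hlab T1 T (List.nodup_cons.mp hnd).2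
      (fun r hr => hT r (List.mem_cons_of_mem _ hr)) (fun r hr => hq r (List.mem_cons_of_mem _ hr))
    refine van_drop (W := Wq M) ?_ hV (zero_slice hd hlab hqp hqM h1 h2)
    intro r hr
    have hrq : q ≠ r := fun e => hqT (by rw [e]; exact hr)
    obtain ⟨hrp, hrM⟩ := hT r (List.mem_cons_of_mem _ hr)
    exact Hq_le_Wq hqp hrp hrM hrq

/-- One step. -/
theorem step_lab (hd : d * M = m) {a : ℕ} (ha : a ≠ 0) {s0 s : Multiset (ZMod m)}
    (hs : RelS s) (hlab : Lab a s0 s) (hord : ∀ x ∈ s, addOrderOf x ≠ M → ¬ M ∣ addOrderOf x)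
    (hbig : ∀ q : ℕ, q.Prime → q ∣ M → ¬ q ∣ a → 2 * (Rl a s0 M).card < q - 1)
    (hMa : ¬ M ∣ 2 * a) :
    ∃ s' : Multiset (ZMod m), (∀ x ∈ s', (x ∈ s ∧ addOrderOf x ≠ M) ∨ addOrderOf x < M) ∧
      Lab a s0 s' ∧ Eqv s s' := by
  have hMa' : ¬ M ∣ a := fun h => hMa (h.mul_left 2)
  set T1 : List ℕ := (M.primeFactors.filter (· ∣ a)).toList with hT1
  set T0 : List ℕ := (M.primeFactors.filter (fun q => ¬ q ∣ a)).toList with hT0
  have hmem1 : ∀ {q : ℕ}, q ∈ T1 ↔ (q.Prime ∧ q ∣ M) ∧ q ∣ a := by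
    intro q
    rw [hT1, Finset.mem_toList, mem_filter, Nat.mem_primeFactors]
    exact ⟨fun h => ⟨⟨h.1.1, h.1.2.1⟩, h.2⟩, fun h => ⟨⟨h.1.1, h.1.2, NeZero.ne M⟩, h.2⟩⟩
  have hmem0 : ∀ {q : ℕ}, q ∈ T0 ↔ (q.Prime ∧ q ∣ M) ∧ ¬ q ∣ a := by
    intro q
    rw [hT0, Finset.mem_toList, mem_filter, Nat.mem_primeFactors]
    exact ⟨fun h => ⟨⟨h.1.1, h.1.2.1⟩, h.2⟩, fun h => ⟨⟨h.1.1, h.1.2, NeZero.ne M⟩, h.2⟩⟩
  have hmem : ∀ q ∈ T0 ++ T1, q.Prime ∧ q ∣ M := by
    intro q hq
    rcases List.mem_append.mp hq with hq | hq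
    · exact (hmem0.mp hq).1
    · exact (hmem1.mp hq).1
  have hVan : Van (Hq M) T1 (sc (M := M) d s) := by
    refine van_small hd hlab T1 T0 ?_ hmem ?_ (van_sc' hd hs hord _ ?_)
    · rw [List.nodup_append]
      refine ⟨Finset.nodup_toList _, Finset.nodup_toList _, ?_⟩
      intro x hx y hy hxy
      subst hxy
      exact (hmem0.mp hx).2 (hmem1.mp hy).2
    · intro q hq
      obtain ⟨⟨h1, h2⟩, h3⟩ := hmem0.mp hq
      exact ⟨h3, hbig q h1 h2 h3⟩
    · intro q hq hqM
      rw [List.mem_append]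
      by_cases h : q ∣ a
      · exact Or.inr (hmem1.mpr ⟨⟨hq, hqM⟩, h⟩)
      · exact Or.inl (hmem0.mpr ⟨⟨hq, hqM⟩, h⟩)
  have hσU : (-1 : (ZMod M)ˣ) ∉ Hq M a := by
    rw [mem_Hq]
    intro h1
    apply hMa
    rw [← ZMod.natCast_eq_zero_iff]
    push_cast at h1 ⊢
    linear_combination - h1
  obtain ⟨φ, hφ1, hφ2, hφ3, hφ4⟩ := odd_int_decomp (H := Hq M) (W := Wq M) (Hq M a) hσU (by simp)
    T1 (Finset.nodup_toList _) (fun q hq => Hq_disjoint_Wq (hmem1.mp hq).1.1)
    (fun q hq r hr hne => Hq_le_Wq (hmem1.mp hq).1.1 (hmem1.mp hr).1.1 (hmem1.mp hr).1.2 hne)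
    (fun q hq => Hq_le_of_dvd (hmem1.mp hq).2) (sc_neg s) hVan
  -- the lowered multisets
  have hlow : ∀ q ∈ T1, ∃ ν : Multiset (ZMod M),
      (∀ b ∈ ν, ((M / q : ℕ) : ZMod M) * b = 0) ∧
      (∀ b ∈ ν, ∃ κ : (ZMod M)ˣ, (φ q κ).toNat ≠ 0 ∧ (b = (q : ZMod M) * κ ∨
        (¬ q ∣ M / q ∧ ∃ i : ℕ, b = - (((1 + i * (M / q) : ℕ) : ZMod M) * (κ : ZMod M))))) ∧
      ∀ (Q : Type) [AddCommGroup Q] (c : ZMod M → Q), OddDist c →
        ∑ u, (φ q u).toNat • c (u : ZMod M) = (ν.map c).sum := by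
    intro q hq
    obtain ⟨⟨hqp, hqM⟩, _⟩ := hmem1.mp hq
    refine lowering_lab (Nat.mul_div_cancel' hqM) hqp _ _ rfl ?_
    intro k hk u
    rw [hφ1 q hq k hk u]
  choose! ν hν1 hν2 hν3 using hlow
  have hnew : ∀ x ∈ (T1.map fun q => (ν q).map (iota d : ZMod M → ZMod m)).sum,
      addOrderOf x < M ∧ PR a s0 (addOrderOf x) ((a : ZMod m) * x) := by
    intro x hx
    obtain ⟨q, hq, h3⟩ := mem_list_sum hx
    obtain ⟨b, hb, rfl⟩ := Multiset.mem_map.mp h3
    obtain ⟨⟨hqp, hqM⟩, hqa⟩ := hmem1.mp hq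
    set D := M / q with hD
    have hqD : q * D = M := Nat.mul_div_cancel' hqM
    have hDpos : 0 < D := Nat.div_pos (Nat.le_of_dvd (NeZero.pos M) hqM) hqp.pos
    obtain ⟨κ, hκ, hb2⟩ := hν2 q hq b hb
    have hM0 : ((q * D : ℕ) : ZMod M) = 0 := by rw [hqD]; simp
    have h4 : addOrderOf (iota d b : ZMod m) ∣ D := by
      rw [addOrderOf_dvd_iff_nsmul_eq_zero, nsmul_eq_mul, ← iota_natMul hd, hν1 q hq b hb,
        iota_zero]
    have h5 : D ∣ addOrderOf (iota d b : ZMod m) := by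
      set N := addOrderOf (iota d b : ZMod m) with hN
      have h6 : (N : ℕ) • (iota d b : ZMod m) = 0 := addOrderOf_nsmul_eq_zero _
      rw [nsmul_eq_mul, ← iota_natMul hd] at h6
      have h7 := iota_eq_zero hd h6
      rcases hb2 with hb2 | ⟨hnd, i, hb2⟩
      · rw [hb2, ← mul_assoc, Units.mul_left_eq_zero] at h7
        have h8 : ((N * q : ℕ) : ZMod M) = 0 := by push_cast; exact h7
        rw [ZMod.natCast_eq_zero_iff, ← hqD, mul_comm N q] at h8
        exact (Nat.mul_dvd_mul_iff_left hqp.pos).mp h8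
      · rw [hb2, mul_neg, neg_eq_zero, ← mul_assoc, Units.mul_left_eq_zero] at h7
        have h8 : ((N * (1 + i * D) : ℕ) : ZMod M) = 0 := by push_cast at h7 ⊢; exact h7
        rw [ZMod.natCast_eq_zero_iff, ← hqD] at h8
        have h9 : D ∣ N * (1 + i * D) := (Dvd.intro_left q rfl).trans h8
        refine Nat.Coprime.dvd_of_dvd_mul_right ?_ h9
        simp
    have h6 : addOrderOf (iota d b : ZMod m) = D := Nat.dvd_antisymm h4 h5
    rw [h6]
    refine ⟨Nat.div_lt_self (NeZero.pos M) hqp.one_lt, ?_⟩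
    have h7 : φ q κ ≠ 0 := by
      intro h; rw [h] at hκ; exact hκ rfl
    obtain ⟨k, hk, h8⟩ := hφ4 q hq κ h7
    have h9 := PR_of_sc hd hlab hMa' h8
    have h10 : (a : ZMod m) * iota d ((k * κ : (ZMod M)ˣ) : ZMod M) =
        (a : ZMod m) * iota d (κ : ZMod M) := by
      rw [← iota_natMul hd, ← iota_natMul hd]
      congr 1
      rw [mem_Hq] at hk
      rw [Units.val_mul]
      linear_combination (κ : ZMod M) * hk
    rw [h10] at h9
    have h9' : PR a s0 (q * D) ((a : ZMod m) * iota d (κ : ZMod M)) := by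
      convert h9 using 1
    rcases hb2 with hb2 | ⟨hnd, i, hb2⟩
    · have h11 := h9'.mul hqp.pos hDpos
      have h12 : (a : ZMod m) * iota d b = (q : ZMod m) * ((a : ZMod m) * iota d (κ : ZMod M)) := by
        rw [hb2, iota_natMul hd]; ring
      rw [h12]
      exact h11
    · have h11 := (h9'.keep ha hqp hqa hnd).neg
      have h12 : (a : ZMod m) * iota d b = - ((a : ZMod m) * iota d (κ : ZMod M)) := by
        rw [← iota_natMul hd, ← iota_natMul hd, ← iota_neg hd]
        congr 1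
        rw [hb2]
        obtain ⟨l, hl⟩ := hqa
        have h13 : (a : ZMod M) * (D : ZMod M) = 0 := by
          rw [hl]
          push_cast at hM0 ⊢
          linear_combination (l : ZMod M) * hM0
        push_cast
        linear_combination - (i : ZMod M) * (κ : ZMod M) * h13
      rw [h12]
      exact h11
  refine ⟨s.filter (fun a => ¬ addOrderOf a = M) +
    (T1.map fun q => (ν q).map (iota d : ZMod M → ZMod m)).sum, ?_, ?_, ?_⟩
  · intro x hx
    rcases Multiset.mem_add.mp hx with hx | hx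
    · exact Or.inl (Multiset.mem_filter.mp hx)
    · exact Or.inr (hnew x hx).1
  · intro x hx hxa
    rcases Multiset.mem_add.mp hx with hx | hx
    · exact hlab x (Multiset.mem_filter.mp hx).1 hxa
    · exact (hnew x hx).2
  · intro Q _ c hc
    have hc' := hc.comp_iota hd
    have e1 : ∀ q ∈ T1, (((ν q).map (iota d : ZMod M → ZMod m)).map c).sum =
        ∑ u : (ZMod M)ˣ, (φ q u).toNat • c (iota d (u : ZMod M)) := by
      intro q hq
      rw [hν3 q hq Q _ hc', Multiset.map_map]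
      rfl
    have e2 : ∀ T' : List ℕ, (∀ q ∈ T', q ∈ T1) →
        (T'.map fun q => (((ν q).map (iota d : ZMod M → ZMod m)).map c).sum).sum =
        ∑ u : (ZMod M)ˣ, (T'.map fun q => (φ q u).toNat).sum • c (iota d (u : ZMod M)) := by
      intro T' hT'
      induction T' with
      | nil => simp
      | cons q T' ih =>
        rw [List.map_cons, List.sum_cons, ih fun r hr => hT' r (List.mem_cons_of_mem _ hr),
          e1 q (hT' q (List.mem_cons_self ..)), ← sum_add_distrib]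
        refine sum_congr rfl fun u _ => ?_
        rw [List.map_cons, List.sum_cons, add_smul]
    rw [Multiset.map_add, Multiset.sum_add, sum_list_sum, e2 T1 fun _ h => h]
    have e3 : (s.map c).sum = ((s.filter fun a => addOrderOf a = M).map c).sum +
        ((s.filter fun a => ¬ addOrderOf a = M).map c).sum := by
      rw [← Multiset.sum_add, ← Multiset.map_add, Multiset.filter_add_not]
    rw [e3, sum_order hd, add_comm]
    congr 1
    symm
    apply odd_sum hc'
    intro u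
    have h1 : ∀ T' : List ℕ, (∀ q ∈ T', q ∈ T1) →
        (((T'.map fun q => (φ q u).toNat).sum : ℕ) : ℤ) -
        (((T'.map fun q => (φ q (-u)).toNat).sum : ℕ) : ℤ) = (T'.map fun q => φ q u).sum := by
      intro T' hT'
      induction T' with
      | nil => simp
      | cons q T' ih =>
        have ih' := ih fun r hr => hT' r (List.mem_cons_of_mem _ hr)
        have h2 := hφ2 q (hT' q (List.mem_cons_self ..)) u
        rw [neg_mul, one_mul] at h2
        rw [List.map_cons, List.sum_cons, List.map_cons, List.sum_cons, List.map_cons,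
          List.sum_cons, ← ih', h2]
        push_cast
        have h3 : ((φ q u).toNat : ℤ) - ((- φ q u).toNat : ℤ) = φ q u := by omega
        linarith
    rw [h1 T1 fun _ h => h, ← hφ3 u]
    rfl

end Pool.Agent.H953R3.FH
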