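import Pool.Agent.H953R3.FH.Low
import Pool.Agent.H953R3.FH.Four

/-!
# One step of the descent
-/

namespace Pool.Agent.H953R3.FH

open Finset Pool.Agent.H916R2
open scoped Classical

set_option linter.unusedSectionVars false

variable {m : ℕ} [NeZero m]

lemma sawOdd (t : (ZMod m)ˣ) : OddDist (fun a : ZMod m => saw ((t : ZMod m) * a)) where
  neg := fun a => by simp only [mul_neg, saw_neg]
  half := fun a ha => by
    apply saw_half
    rw [← mul_add, ha, mul_zero]
  dist := fun p d _ hpd a => saw_dist_unit hpd t a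

/-- `s` and `s'` have the same value under all odd distributions. -/
def Eqv (s s' : Multiset (ZMod m)) : Prop :=
  ∀ (Q : Type) [AddCommGroup Q] (c : ZMod m → Q), OddDist c → (s'.map c).sum = (s.map c).sum

lemma Eqv.relS {s s' : Multiset (ZMod m)} (h : Eqv s s') (hs : RelS s) : RelS s' := by
  intro t
  rw [h ℤ _ (sawOdd t)]
  exact hs t

/-- weight of an order -/
def wt (N : ℕ) : ℕ := if Even N then 2 else 1

lemma wt_le (N : ℕ) : wt N ≤ 2 := by unfold wt; split_ifs <;> norm_num

lemma wt_pos (N : ℕ) : 1 ≤ wt N := by unfold wt; split_ifs <;> norm_num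

lemma wt_mono {N N' : ℕ} (h : N' ∣ N) : wt N' ≤ wt N := by
  unfold wt
  by_cases h1 : Even N
  · rw [if_pos h1]; split_ifs <;> norm_num
  · rw [if_neg h1, if_neg]
    intro h2
    exact h1 (even_iff_two_dvd.mpr ((even_iff_two_dvd.mp h2).trans h))

/-- weight of a multiset -/
noncomputable def WS (s : Multiset (ZMod m)) : ℕ := (s.map fun a => wt (addOrderOf a)).sum

lemma WS_add (s t : Multiset (ZMod m)) : WS (s + t) = WS s + WS t := by
  unfold WS; rw [Multiset.map_add, Multiset.sum_add]

lemma WS_le {s : Multiset (ZMod m)} {k : ℕ} (h : ∀ a ∈ s, wt (addOrderOf a) ≤ k) :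
    WS s ≤ k * Multiset.card s := by
  unfold WS
  have := Multiset.sum_le_card_nsmul (s.map fun a => wt (addOrderOf a)) k (by
    intro x hx
    obtain ⟨a, ha, rfl⟩ := Multiset.mem_map.mp hx
    exact h a ha)
  rw [Multiset.card_map, smul_eq_mul] at this
  linarith

lemma WS_filter (s : Multiset (ZMod m)) (M : ℕ) :
    WS s = wt M * Multiset.card (s.filter fun a => addOrderOf a = M) +
      WS (s.filter fun a => ¬ addOrderOf a = M) := by
  conv_lhs => rw [← Multiset.filter_add_not (fun a => addOrderOf a = M) s]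
  rw [WS_add]
  congr 1
  unfold WS
  rw [Multiset.map_congr rfl (g := fun _ => wt M) (fun a ha => by rw [(Multiset.mem_filter.mp ha).2]),
    Multiset.map_const', Multiset.sum_replicate, smul_eq_mul, mul_comm]

variable {M d : ℕ} [NeZero M]

lemma odd_sum {Q : Type} [AddCommGroup Q] {c : ZMod M → Q} (hc : OddDist c) (y z : (ZMod M)ˣ → ℕ)
    (h : ∀ u, (y u : ℤ) - y (-u) = (z u : ℤ) - z (-u)) :
    ∑ u : (ZMod M)ˣ, y u • c (u : ZMod M) = ∑ u : (ZMod M)ˣ, z u • c (u : ZMod M) := by
  rw [← sub_eq_zero, ← sum_sub_distrib]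
  have h1 : ∀ u : (ZMod M)ˣ, y u • c (u : ZMod M) - z u • c (u : ZMod M) =
      ((y u : ℤ) - z u) • c (u : ZMod M) := by
    intro u
    rw [sub_smul, natCast_zsmul, natCast_zsmul]
  rw [sum_congr rfl fun u _ => h1 u]
  refine Finset.sum_involution (fun u _ => -u) ?_ ?_ (fun u _ => mem_univ _) (fun u _ => neg_neg u)
  · intro u _
    have h2 := h u
    have h3 : ((y (-u) : ℤ) - z (-u)) = (y u : ℤ) - z u := by linarith
    rw [h3, Units.val_neg, hc.neg, smul_neg, add_neg_cancel]
  · intro u _ hne he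
    apply hne
    have h2 : (u : ZMod M) + (u : ZMod M) = 0 := by
      have h3 := congrArg Units.val he
      rw [Units.val_neg] at h3
      exact neg_eq_iff_add_eq_zero.mp h3
    rw [hc.half _ h2, smul_zero]

lemma nrm_sc (hd : d * M = m) (s : Multiset (ZMod m)) :
    nrm (sc (M := M) d s) ≤ 2 * (Multiset.card (s.filter fun a => addOrderOf a = M) : ℤ) := by
  have h1 := sum_order hd s (fun _ => (1 : ℤ))
  rw [Multiset.map_const', Multiset.sum_replicate, nsmul_eq_mul, mul_one] at h1
  have h2 : ∑ u : (ZMod M)ˣ, ((s.count (iota d (((-u : (ZMod M)ˣ)) : ZMod M)) : ℕ) : ℤ) =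
      ∑ u : (ZMod M)ˣ, ((s.count (iota d (u : ZMod M)) : ℕ) : ℤ) :=
    Equiv.sum_comp (Equiv.neg (ZMod M)ˣ)
      (fun u : (ZMod M)ˣ => ((s.count (iota d (u : ZMod M)) : ℕ) : ℤ))
  have h3 : nrm (sc (M := M) d s) ≤ ∑ u : (ZMod M)ˣ,
      (((s.count (iota d (u : ZMod M)) : ℕ) : ℤ) +
        ((s.count (iota d (((-u : (ZMod M)ˣ)) : ZMod M)) : ℕ) : ℤ)) := by
    unfold nrm sc
    refine sum_le_sum fun u _ => ?_
    rw [abs_le]
    constructor <;> omega
  rw [sum_add_distrib, h2] at h3
  rw [h1]
  simp only [nsmul_eq_mul, mul_one]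
  linarith

lemma mem_list_sum {α : Type*} {a : α} {F : ℕ → Multiset α} :
    ∀ {T : List ℕ}, a ∈ (T.map F).sum → ∃ q ∈ T, a ∈ F q
  | [], h => by simp at h
  | q :: T, h => by
    rw [List.map_cons, List.sum_cons, Multiset.mem_add] at h
    rcases h with h | h
    · exact ⟨q, List.mem_cons_self .., h⟩
    · obtain ⟨r, hr, h'⟩ := mem_list_sum h
      exact ⟨r, List.mem_cons_of_mem _ hr, h'⟩

lemma sum_list_sum {α Q : Type*} [AddCommMonoid Q] (F : ℕ → Multiset α) (g : α → Q) :
    ∀ T : List ℕ, ((T.map F).sum.map g).sum = (T.map fun q => ((F q).map g).sum).sum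
  | [] => by simp
  | q :: T => by
    rw [List.map_cons, List.sum_cons, List.map_cons, List.sum_cons, Multiset.map_add,
      Multiset.sum_add, sum_list_sum F g T]

lemma two_mul_pos_part {φ : (ZMod M)ˣ → ℤ} (hφ : ∀ u, φ (-1 * u) = - φ u) :
    2 * ((∑ u, (φ u).toNat : ℕ) : ℤ) = nrm φ := by
  have h1 : ∑ u : (ZMod M)ˣ, ((φ (-u)).toNat : ℤ) = ∑ u : (ZMod M)ˣ, ((φ u).toNat : ℤ) :=
    Equiv.sum_comp (Equiv.neg (ZMod M)ˣ) (fun u : (ZMod M)ˣ => ((φ u).toNat : ℤ))
  have h2 : nrm φ = ∑ u : (ZMod M)ˣ, (((φ u).toNat : ℤ) + ((φ (-u)).toNat : ℤ)) := by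
    unfold nrm
    refine sum_congr rfl fun u _ => ?_
    have h3 := hφ u
    rw [neg_mul, one_mul] at h3
    rw [h3]
    rcases le_total 0 (φ u) with h | h
    · rw [abs_of_nonneg h]; omega
    · rw [abs_of_nonpos h]; omega
  rw [h2, sum_add_distrib, h1]
  push_cast; ring

/-- One step: the order `M` is removed. -/
theorem step_main (hd : d * M = m) (h24 : Even M → 4 ∣ M) (s : Multiset (ZMod m))
    (hord : ∀ a ∈ s, addOrderOf a ≤ M) (T : List ℕ) (hT : ∀ q ∈ T, q.Prime ∧ q ∣ M)
    (hC : Concl (Hq M) (-1) T (sc (M := M) d s)) :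
    ∃ s' : Multiset (ZMod m), WS s' ≤ WS s ∧ (∀ a ∈ s', addOrderOf a < M) ∧ Eqv s s' := by
  obtain ⟨φ, hφ1, hφ2, hφ3, hφ4⟩ := hC
  -- the lowered multisets
  have hlow : ∀ q ∈ T, ∃ ν : Multiset (ZMod M),
      Multiset.card ν * (HS (Hq M) q).card ≤ dl M q * ∑ u, (φ q u).toNat ∧
      (∀ b ∈ ν, ((M / q : ℕ) : ZMod M) * b = 0) ∧
      ∀ (Q : Type) [AddCommGroup Q] (c : ZMod M → Q), OddDist c →
        ∑ u, (φ q u).toNat • c (u : ZMod M) = (ν.map c).sum := by
    intro q hq
    obtain ⟨hqp, hqM⟩ := hT q hq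
    refine lowering (Nat.mul_div_cancel' hqM) hqp ?_ _ _ rfl ?_
    · by_cases h2 : q = 2
      · right
        subst h2
        obtain ⟨k, hk⟩ := h24 (even_iff_two_dvd.mpr hqM)
        rw [hk]
        exact ⟨k, by omega⟩
      · exact Or.inl h2
    · intro k hk u
      rw [hφ1 q hq k hk u]
  choose! ν hν1 hν2 hν3 using hlow
  refine ⟨s.filter (fun a => ¬ addOrderOf a = M) +
    (T.map fun q => (ν q).map (iota d : ZMod M → ZMod m)).sum, ?_, ?_, ?_⟩
  · -- weights
    rw [WS_add, WS_filter s M, add_comm]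
    apply Nat.add_le_add_right
    have h1 : WS (T.map fun q => (ν q).map (iota d : ZMod M → ZMod m)).sum ≤
        wt M * Multiset.card (T.map fun q => (ν q).map (iota d : ZMod M → ZMod m)).sum := by
      apply WS_le
      intro a ha
      apply wt_mono
      obtain ⟨q, hq, h3⟩ := mem_list_sum ha
      obtain ⟨b, hb, rfl⟩ := Multiset.mem_map.mp h3
      rw [addOrderOf_dvd_iff_nsmul_eq_zero, nsmul_eq_mul, ← iota_natMul hd]
      simp [iota_zero]
    refine h1.trans (Nat.mul_le_mul_left _ ?_)
    have h2 : Multiset.card (T.map fun q => (ν q).map (iota d : ZMod M → ZMod m)).sum =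
        (T.map fun q => Multiset.card (ν q)).sum := by
      have : ∀ T : List ℕ, Multiset.card (T.map fun q => (ν q).map (iota d : ZMod M → ZMod m)).sum =
        (T.map fun q => Multiset.card (ν q)).sum := by
        intro T
        induction T with
        | nil => simp
        | cons q T ih =>
          rw [List.map_cons, List.sum_cons, List.map_cons, List.sum_cons, Multiset.card_add, ih,
            Multiset.card_map]
      exact this T
    rw [h2]
    have h3 : (((T.map fun q => Multiset.card (ν q)).sum : ℕ) : ℚ) * 2 ≤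
        (T.map fun q => (((if Even (HS (Hq M) q).card then 2 else 1 : ℤ) * nrm (φ q) : ℤ) : ℚ) /
          (HS (Hq M) q).card).sum := by
      have : ∀ T' : List ℕ, (∀ q ∈ T', q ∈ T) →
          (((T'.map fun q => Multiset.card (ν q)).sum : ℕ) : ℚ) * 2 ≤
          (T'.map fun q => (((if Even (HS (Hq M) q).card then 2 else 1 : ℤ) * nrm (φ q) : ℤ) : ℚ) /
            (HS (Hq M) q).card).sum := by
        intro T' hT'
        induction T' with
        | nil => simp
        | cons q T' ih =>
          have hq := hT' q (List.mem_cons_self ..)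
          have ih' := ih fun r hr => hT' r (List.mem_cons_of_mem _ hr)
          rw [List.map_cons, List.sum_cons, List.map_cons, List.sum_cons, Nat.cast_add, add_mul]
          refine add_le_add ?_ ih'
          have hpos : (0 : ℚ) < (HS (Hq M) q).card := by exact_mod_cast card_HS_pos q
          rw [le_div_iff₀ hpos]
          have h4 := hν1 q hq
          have h5 := two_mul_pos_part (hφ2 q hq)
          rw [← h5]
          have h6 : (if Even (HS (Hq M) q).card then 2 else 1 : ℤ) = (dl M q : ℤ) := by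
            unfold dl; split_ifs <;> rfl
          rw [h6]
          have h7 : ((Multiset.card (ν q) * (HS (Hq M) q).card : ℕ) : ℚ) ≤
              ((dl M q * ∑ u, (φ q u).toNat : ℕ) : ℚ) := by exact_mod_cast h4
          push_cast at h7 ⊢
          linarith
      exact this T fun _ h => h
    have h4 := nrm_sc hd s
    have h5 : ((nrm (sc (M := M) d s) : ℤ) : ℚ) ≤
        ((2 * (Multiset.card (s.filter fun a => addOrderOf a = M) : ℤ) : ℤ) : ℚ) := by
      exact_mod_cast h4
    have h6 : (((T.map fun q => Multiset.card (ν q)).sum : ℕ) : ℚ) ≤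
        ((Multiset.card (s.filter fun a => addOrderOf a = M) : ℕ) : ℚ) := by
      push_cast at h5
      linarith
    exact_mod_cast h6
  · -- orders
    intro a ha
    rcases Multiset.mem_add.mp ha with ha | ha
    · obtain ⟨h1, h2⟩ := Multiset.mem_filter.mp ha
      exact lt_of_le_of_ne (hord a h1) h2
    · obtain ⟨q, hq, h3⟩ := mem_list_sum ha
      obtain ⟨b, hb, rfl⟩ := Multiset.mem_map.mp h3
      obtain ⟨hqp, hqM⟩ := hT q hq
      have h4 : addOrderOf (iota d b : ZMod m) ∣ M / q := by
        rw [addOrderOf_dvd_iff_nsmul_eq_zero, nsmul_eq_mul, ← iota_natMul hd, hν2 q hq b hb,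
          iota_zero]
      have h5 : 0 < M / q := Nat.div_pos (Nat.le_of_dvd (NeZero.pos M) hqM) hqp.pos
      exact lt_of_le_of_lt (Nat.le_of_dvd h5 h4) (Nat.div_lt_self (NeZero.pos M) hqp.one_lt)
  · -- the value
    intro Q _ c hc
    have hc' := hc.comp_iota hd
    have e1 : ∀ q ∈ T, (((ν q).map (iota d : ZMod M → ZMod m)).map c).sum =
        ∑ u : (ZMod M)ˣ, (φ q u).toNat • c (iota d (u : ZMod M)) := by
      intro q hq
      rw [hν3 q hq Q _ hc', Multiset.map_map]
      rfl
    have e2 : ∀ T' : List ℕ, (∀ q ∈ T', q ∈ T) →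
        (T'.map fun q => (((ν q).map (iota d : ZMod M → ZMod m)).map c).sum).sum =
        ∑ u : (ZMod M)ˣ, (T'.map fun q => (φ q u).toNat).sum • c (iota d (u : ZMod M)) := by
      intro T' hT'
      induction T' with
      | nil => simp
      | cons q T' ih =>
        rw [List.map_cons, List.sum_cons, ih fun r hr => hT' r (List.mem_cons_of_mem _ hr),
          e1 q (hT' q (List.mem_cons_self ..)), ← sum_add_distrib]
        refine sum_congr rfl fun u _ => ?_
        rw [List.map_cons, List.sum_cons, add_smul]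
    rw [Multiset.map_add, Multiset.sum_add, sum_list_sum, e2 T fun _ h => h]
    have e3 : (s.map c).sum = ((s.filter fun a => addOrderOf a = M).map c).sum +
        ((s.filter fun a => ¬ addOrderOf a = M).map c).sum := by
      rw [← Multiset.sum_add, ← Multiset.map_add, Multiset.filter_add_not]
    rw [e3, sum_order hd, add_comm]
    congr 1
    symm
    apply odd_sum hc'
    intro u
    have h1 : ∀ T' : List ℕ, (∀ q ∈ T', q ∈ T) →
        (((T'.map fun q => (φ q u).toNat).sum : ℕ) : ℤ) -
        (((T'.map fun q => (φ q (-u)).toNat).sum : ℕ) : ℤ) = (T'.map fun q => φ q u).sum := by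
      intro T' hT'
      induction T' with
      | nil => simp
      | cons q T' ih =>
        have ih' := ih fun r hr => hT' r (List.mem_cons_of_mem _ hr)
        have h2 := hφ2 q (hT' q (List.mem_cons_self ..)) u
        rw [neg_mul, one_mul] at h2
        rw [List.map_cons, List.sum_cons, List.map_cons, List.sum_cons, List.map_cons,
          List.sum_cons, ← ih', h2]
        push_cast
        have h3 : ((φ q u).toNat : ℤ) - ((- φ q u).toNat : ℤ) = φ q u := by omega
        linarith
    rw [h1 T fun _ h => h, ← hφ3 u]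
    rfl

end Pool.Agent.H953R3.FH
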