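import Pool.Agent.H953R3.FH.Abs
import Pool.Agent.H916R2.Full

/-!
# The subgroups of units which are trivial modulo `M / q`, or modulo the exact power of `q`
-/

namespace Pool.Agent.H953R3.FH

open Finset
open scoped Classical

set_option linter.unusedSectionVars false

variable {M : ℕ} [NeZero M]

/-- the units fixing `q` -/
noncomputable def Hq (M : ℕ) (q : ℕ) : Subgroup (ZMod M)ˣ :=
  MulAction.stabilizer (ZMod M)ˣ ((q : ℕ) : ZMod M)

lemma mem_Hq {q : ℕ} {u : (ZMod M)ˣ} : u ∈ Hq M q ↔ (u : ZMod M) * (q : ZMod M) = (q : ZMod M) := by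
  unfold Hq
  rw [MulAction.mem_stabilizer_iff, Units.smul_def, smul_eq_mul]

/-- the units fixing the part of `M` prime to `q` -/
noncomputable def Wq (M : ℕ) (q : ℕ) : Subgroup (ZMod M)ˣ := Hq M (M / q ^ M.factorization q)

lemma Hq_le_of_dvd {q k : ℕ} (h : q ∣ k) : Hq M q ≤ Hq M k := by
  intro u hu
  rw [mem_Hq] at hu ⊢
  obtain ⟨l, rfl⟩ := h
  push_cast
  rw [← mul_assoc, hu]

lemma Hq_disjoint {q k : ℕ} (h : Nat.Coprime q k) : Disjoint (Hq M q) (Hq M k) := by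
  rw [Subgroup.disjoint_def]
  intro u hu hk
  rw [mem_Hq] at hu hk
  have hb : ((q : ℤ) : ZMod M) * (Nat.gcdA q k : ZMod M) + ((k : ℤ) : ZMod M) * (Nat.gcdB q k : ZMod M) = 1 := by
    have := Nat.gcd_eq_gcd_ab q k
    rw [Nat.Coprime.gcd_eq_one h] at this
    have h2 := congrArg (Int.cast : ℤ → ZMod M) this
    push_cast at h2 ⊢
    exact h2.symm
  ext
  push_cast at hb
  rw [Units.val_one]
  linear_combination (Nat.gcdA q k : ZMod M) * hu + (Nat.gcdB q k : ZMod M) * hk + (1 - (u : ZMod M)) * hb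

lemma Hq_disjoint_Wq {q : ℕ} (hq : q.Prime) : Disjoint (Hq M q) (Wq M q) :=
  Hq_disjoint (Nat.coprime_ordCompl hq (NeZero.ne M))

lemma Hq_le_Wq {q r : ℕ} (hq : q.Prime) (hr : r.Prime) (hrM : r ∣ M) (hne : q ≠ r) :
    Hq M r ≤ Wq M q := by
  apply Hq_le_of_dvd
  have h1 : Nat.Coprime r (q ^ M.factorization q) :=
    Nat.Coprime.pow_right _ ((Nat.coprime_primes hr hq).mpr (Ne.symm hne))
  have h2 : r ∣ q ^ M.factorization q * (M / q ^ M.factorization q) := by
    rw [Nat.mul_div_cancel' (Nat.ordProj_dvd M q)]; exact hrM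
  exact h1.dvd_of_dvd_mul_left h2

/-- units congruent to one modulo the quotient -/
lemma unit_of {q D : ℕ} (h : q * D = M) (i : ℕ) (hi : ¬ q ∣ 1 + i * D) (hq : q.Prime) :
    ∃ u : (ZMod M)ˣ, u ∈ Hq M q ∧ (u : ZMod M) = ((1 + i * D : ℕ) : ZMod M) := by
  have hcop : (1 + i * D).Coprime M := by
    rw [← h]
    refine Nat.Coprime.mul_right ?_ ?_
    · exact (hq.coprime_iff_not_dvd.mpr hi).symm
    · simp
  refine ⟨ZMod.unitOfCoprime _ hcop, ?_, ZMod.coe_unitOfCoprime _ _⟩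
  rw [mem_Hq, ZMod.coe_unitOfCoprime]
  have : ((q * D : ℕ) : ZMod M) = 0 := by rw [h]; simp
  push_cast at this ⊢
  linear_combination (i : ZMod M) * this

lemma exists_of_mem_Hq {q D : ℕ} (h : q * D = M) (hq : q.Prime) {u : (ZMod M)ˣ} (hu : u ∈ Hq M q) :
    ∃ i < q, (u : ZMod M) = ((1 + i * D : ℕ) : ZMod M) := by
  rw [mem_Hq] at hu
  have hM : 0 < M := NeZero.pos M
  have hD : 0 < D := Nat.pos_of_ne_zero (by rintro rfl; simp at h; omega)
  -- the representative is one modulo D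
  have h1 : (((u : ZMod M).val * q : ℕ) : ZMod M) = ((1 * q : ℕ) : ZMod M) := by
    push_cast; rw [ZMod.natCast_zmod_val, hu, one_mul]
  have h2 : (u : ZMod M).val * q ≡ 1 * q [MOD D * q] := by
    rw [ZMod.natCast_eq_natCast_iff] at h1
    rwa [mul_comm D q, h]
  have h3 : (u : ZMod M).val ≡ 1 [MOD D] := Nat.ModEq.mul_right_cancel' hq.ne_zero h2
  -- write val + M = 1 + j D
  obtain ⟨j, hj⟩ : ∃ j : ℕ, (u : ZMod M).val + M = 1 + j * D := by
    have h4 : (u : ZMod M).val + M ≡ 1 [MOD D] := by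
      have : (u : ZMod M).val + M ≡ 1 + 0 [MOD D] :=
        Nat.ModEq.add h3 ((Nat.modEq_zero_iff_dvd).mpr (Dvd.intro_left q h))
      simpa using this
    have h5 : D ∣ (u : ZMod M).val + M - 1 := (Nat.modEq_iff_dvd' (by omega)).mp h4.symm
    obtain ⟨j, hj⟩ := h5
    exact ⟨j, by rw [mul_comm j D, ← hj]; omega⟩
  refine ⟨j % q, Nat.mod_lt _ hq.pos, ?_⟩
  have h6 : (u : ZMod M) = (((u : ZMod M).val + M : ℕ) : ZMod M) := by
    push_cast; rw [ZMod.natCast_zmod_val]; simp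
  rw [h6, hj]
  have h7 : ((q * D : ℕ) : ZMod M) = 0 := by rw [h]; simp
  have h8 : (j : ZMod M) = ((j % q + q * (j / q) : ℕ) : ZMod M) := by rw [Nat.mod_add_div]
  push_cast at h7 h8 ⊢
  rw [h8]
  linear_combination ((j / q : ℕ) : ZMod M) * h7

end Pool.Agent.H953R3.FH
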